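import Pool.Agent.H48.CBR.Def

/-!
# Basic facts on the distances and the Cantor-Bendixson derivatives
-/

set_option autoImplicit false

namespace Pool.Agent.H48.CBR

open Filter Topology Set

variable {d : ℕ}

/-- agreement on the box of radius `m` -/
def Ag (m : ℕ) (x y : Cfg d) : Prop := ∀ v, nrm v ≤ m → x v = y v

theorem Ag.symm {m : ℕ} {x y : Cfg d} (h : Ag m x y) : Ag m y x := fun v hv => (h v hv).symm

theorem Ag.refl (m : ℕ) (x : Cfg d) : Ag m x x := fun _ _ => rfl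

theorem Ag.trans {m : ℕ} {x y z : Cfg d} (h : Ag m x y) (h' : Ag m y z) : Ag m x z :=
  fun v hv => (h v hv).trans (h' v hv)

theorem Ag.mono {m n : ℕ} {x y : Cfg d} (h : Ag n x y) (hmn : m ≤ n) : Ag m x y :=
  fun v hv => h v (hv.trans hmn)

theorem dl_nonneg (x y : Cfg d) : 0 ≤ dl x y := by
  unfold dl
  split_ifs
  · exact le_rfl
  · positivity

theorem dl_le_one (x y : Cfg d) : dl x y ≤ 1 := by
  unfold dl
  split_ifs
  · exact zero_le_one
  · exact pow_le_one₀ (by norm_num) (by norm_num)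

theorem dl_lt_iff (m : ℕ) (x y : Cfg d) : dl x y < (1 / 2) ^ m ↔ Ag m x y := by
  classical
  by_cases h : x = y
  · subst h
    have : dl x x = 0 := by simp [dl]
    rw [this]
    exact ⟨fun _ => Ag.refl m x, fun _ => by positivity⟩
  · have hd : dl x y = (1 / 2 : ℝ) ^ sInf {k : ℕ | ∃ v, nrm v = k ∧ x v ≠ y v} := by simp [dl, h]
    have hne : {k : ℕ | ∃ v, nrm v = k ∧ x v ≠ y v}.Nonempty := by
      obtain ⟨v, hv⟩ := Function.ne_iff.1 h
      exact ⟨nrm v, v, rfl, hv⟩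
    rw [hd, pow_lt_pow_iff_right_of_lt_one₀ (by norm_num) (by norm_num)]
    constructor
    · intro hm v hv
      by_contra hc
      have := Nat.sInf_le (show nrm v ∈ {k : ℕ | ∃ v, nrm v = k ∧ x v ≠ y v} from ⟨v, rfl, hc⟩)
      omega
    · intro ha
      obtain ⟨v, hv, hc⟩ := Nat.sInf_mem hne
      by_contra hm
      exact hc (ha v (by omega))

theorem dl_le_of_ag {m : ℕ} {x y : Cfg d} (h : Ag m x y) : dl x y ≤ (1 / 2) ^ (m + 1) := by
  classical
  by_cases hxy : x = y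
  · subst hxy
    have : dl x x = 0 := by simp [dl]
    rw [this]
    positivity
  · by_contra hc
    push Not at hc
    have hd : dl x y = (1 / 2 : ℝ) ^ sInf {k : ℕ | ∃ v, nrm v = k ∧ x v ≠ y v} := by simp [dl, hxy]
    rw [hd, pow_lt_pow_iff_right_of_lt_one₀ (by norm_num) (by norm_num)] at hc
    have hne : {k : ℕ | ∃ v, nrm v = k ∧ x v ≠ y v}.Nonempty := by
      obtain ⟨v, hv⟩ := Function.ne_iff.1 hxy
      exact ⟨nrm v, v, rfl, hv⟩
    obtain ⟨v, hv, hcv⟩ := Nat.sInf_mem hne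
    exact hcv (h v (by omega))

/-- the sets look the same in boxes of radius `m` around the origin -/
def Near (m : ℕ) (X Y : Set (Cfg d)) : Prop :=
  (∀ x ∈ X, ∃ y ∈ Y, Ag m x y) ∧ (∀ y ∈ Y, ∃ x ∈ X, Ag m x y)

theorem near_of_hd {m : ℕ} {X Y : Shift d} (h : hd X Y < (1 / 2) ^ m) : Near m X.carrier Y.carrier := by
  unfold hd at h
  rw [max_lt_iff] at h
  obtain ⟨h1, h2⟩ := h
  have : Nonempty X.carrier := X.nonempty.to_subtype
  have : Nonempty Y.carrier := Y.nonempty.to_subtype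
  constructor
  · intro x hx
    have hb : BddAbove (range fun x : X.carrier => ⨅ y : Y.carrier, dl x.1 y.1) := by
      refine ⟨1, ?_⟩
      rintro _ ⟨x', rfl⟩
      obtain ⟨y0, hy0⟩ := Y.nonempty
      exact (ciInf_le ⟨0, by rintro _ ⟨y, rfl⟩; exact dl_nonneg _ _⟩ (⟨y0, hy0⟩ : Y.carrier)).trans (dl_le_one _ _)
    have h3 := (le_ciSup hb ⟨x, hx⟩).trans_lt h1
    obtain ⟨y, hy⟩ := exists_lt_of_ciInf_lt h3
    exact ⟨y.1, y.2, (dl_lt_iff _ _ _).1 hy⟩
  · intro y hy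
    have hb : BddAbove (range fun y : Y.carrier => ⨅ x : X.carrier, dl x.1 y.1) := by
      refine ⟨1, ?_⟩
      rintro _ ⟨x', rfl⟩
      obtain ⟨y0, hy0⟩ := X.nonempty
      exact (ciInf_le ⟨0, by rintro _ ⟨y, rfl⟩; exact dl_nonneg _ _⟩ (⟨y0, hy0⟩ : X.carrier)).trans (dl_le_one _ _)
    have h3 := (le_ciSup hb ⟨y, hy⟩).trans_lt h2
    obtain ⟨x, hx⟩ := exists_lt_of_ciInf_lt h3
    exact ⟨x.1, x.2, (dl_lt_iff _ _ _).1 hx⟩

theorem hd_le_of_near {m : ℕ} {X Y : Shift d} (h : Near m X.carrier Y.carrier) : hd X Y ≤ (1 / 2) ^ (m + 1) := by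
  have : Nonempty X.carrier := X.nonempty.to_subtype
  have : Nonempty Y.carrier := Y.nonempty.to_subtype
  refine max_le ?_ ?_
  · refine ciSup_le fun x => ?_
    obtain ⟨y, hy, ha⟩ := h.1 x.1 x.2
    exact (ciInf_le ⟨0, by rintro _ ⟨y, rfl⟩; exact dl_nonneg _ _⟩ (⟨y, hy⟩ : Y.carrier)).trans (dl_le_of_ag ha)
  · refine ciSup_le fun y => ?_
    obtain ⟨x, hx, ha⟩ := h.2 y.1 y.2
    exact (ciInf_le ⟨0, by rintro _ ⟨y, rfl⟩; exact dl_nonneg _ _⟩ (⟨x, hx⟩ : X.carrier)).trans (dl_le_of_ag ha)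

theorem mem_der_iff {S : Set (Shift d)} {X : Shift d} :
    X ∈ der S ↔ X ∈ S ∧ ∀ m, ∃ Y ∈ S, Y ≠ X ∧ Near m X.carrier Y.carrier := by
  constructor
  · rintro ⟨h1, h2⟩
    refine ⟨h1, fun m => ?_⟩
    obtain ⟨Y, hY, hne, hlt⟩ := h2 ((1 / 2) ^ m) (by positivity)
    exact ⟨Y, hY, hne, near_of_hd hlt⟩
  · rintro ⟨h1, h2⟩
    refine ⟨h1, fun ε hε => ?_⟩
    obtain ⟨m, hm⟩ := exists_pow_lt_of_lt_one hε (show (1 / 2 : ℝ) < 1 by norm_num)
    obtain ⟨Y, hY, hne, hn⟩ := h2 m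
    refine ⟨Y, hY, hne, (hd_le_of_near hn).trans_lt (lt_of_le_of_lt ?_ hm)⟩
    exact pow_le_pow_of_le_one (by norm_num) (by norm_num) (Nat.le_succ m)

theorem CB_anti (d : ℕ) {α β : Ordinal.{0}} (h : α ≤ β) : CB d β ⊆ CB d α := by
  induction β using Ordinal.limitRecOn with
  | zero => rw [nonpos_iff_eq_zero.1 h]
  | add_one β ih =>
    rcases h.eq_or_lt with rfl | h'
    · exact subset_rfl
    · rw [CB_succ]
      intro X hX
      exact ih (Order.lt_add_one_iff.1 h') hX.1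
  | limit l hl ih =>
    rcases h.eq_or_lt with rfl | h'
    · exact subset_rfl
    · rw [CB_limit d hl]
      intro X hX
      exact mem_iInter.1 hX ⟨α, h'⟩

theorem mem_CB_of_lt {γ : Ordinal.{0}} {Z : Shift d}
    (h : ∀ β < γ, ∀ m, ∃ Y ∈ CB d β, Y ≠ Z ∧ Near m Z.carrier Y.carrier) : Z ∈ CB d γ := by
  suffices H : ∀ β ≤ γ, Z ∈ CB d β from H γ le_rfl
  intro β
  induction β using Ordinal.limitRecOn with
  | zero => intro _; rw [CB_zero]; trivial
  | add_one β ih =>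
    intro hβ
    rw [CB_succ, mem_der_iff]
    have h' : β < γ := (Order.lt_add_one_iff.2 le_rfl).trans_le hβ
    exact ⟨ih h'.le, h β h'⟩
  | limit l hl ih =>
    intro hβ
    rw [CB_limit d hl, mem_iInter]
    rintro ⟨β, hb⟩
    exact ih β hb (hb.le.trans hβ)

theorem exists_stable (d : ℕ) : {α | CB d (α + 1) = CB d α}.Nonempty := by
  have h := not_injective_of_ordinal (CB d)
  rw [Function.Injective] at h
  push Not at h
  obtain ⟨a, b, hab, hne⟩ := h
  rcases lt_or_gt_of_ne hne with h1 | h1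
  · refine ⟨a, ?_⟩
    refine (CB_anti d (Order.lt_add_one_iff.2 le_rfl).le).antisymm ?_
    rw [hab]
    exact CB_anti d (Order.add_one_le_of_lt h1)
  · refine ⟨b, ?_⟩
    refine (CB_anti d (Order.lt_add_one_iff.2 le_rfl).le).antisymm ?_
    rw [← hab]
    exact CB_anti d (Order.add_one_le_of_lt h1)

theorem le_rank {d : ℕ} {γ : Ordinal.{0}} (h : ∀ α < γ, CB d (α + 1) ≠ CB d α) : γ ≤ rank d := by
  refine le_csInf (exists_stable d) fun α hα => ?_
  by_contra hc
  exact h α (not_le.1 hc) hα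

/-! ### the product topology -/

theorem nrm_le_iff {v : Fin d → ℤ} {m : ℕ} : nrm v ≤ m ↔ ∀ i, (v i).natAbs ≤ m := by
  simp [nrm, Finset.sup_le_iff]

theorem finite_box (d m : ℕ) : {v : Fin d → ℤ | nrm v ≤ m}.Finite := by
  have : {v : Fin d → ℤ | nrm v ≤ m} ⊆ Set.pi univ fun _ => Icc (-(m : ℤ)) m := by
    intro v hv i _
    have := nrm_le_iff.1 hv i
    constructor <;> omega
  exact (Set.Finite.pi fun _ => Set.finite_Icc _ _).subset this

theorem isOpen_ag (m : ℕ) (x : Cfg d) : IsOpen {y : Cfg d | Ag m y x} := by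
  have : {y : Cfg d | Ag m y x} = ⋂ v ∈ {v : Fin d → ℤ | nrm v ≤ m}, {y : Cfg d | y v = x v} := by
    ext y
    simp [Ag]
  rw [this]
  refine (finite_box d m).isOpen_biInter fun v _ => ?_
  have h : IsOpen ((fun y : Cfg d => y v) ⁻¹' ({x v} : Set ℤ)) := (isOpen_discrete _).preimage (continuous_apply v)
  exact h

theorem exists_ag_subset {U : Set (Cfg d)} (hU : IsOpen U) {x : Cfg d} (hx : x ∈ U) :
    ∃ m, {y : Cfg d | Ag m y x} ⊆ U := by
  obtain ⟨I, u, hu, hs⟩ := isOpen_pi_iff.1 hU x hx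
  refine ⟨I.sup nrm, fun y hy => hs ?_⟩
  intro v hv
  rw [hy v (Finset.le_sup hv)]
  exact (hu v hv).2

theorem tendsto_dl_iff {s : ℕ → Cfg d} {x : Cfg d} :
    Tendsto (fun n => dl (s n) x) atTop (𝓝 0) ↔ Tendsto s atTop (𝓝 x) := by
  constructor
  · intro h
    rw [tendsto_nhds]
    intro U hU hx
    obtain ⟨m, hm⟩ := exists_ag_subset hU hx
    have h1 : ∀ᶠ n in atTop, dl (s n) x < (1 / 2) ^ m := h.eventually_lt_const (by positivity)
    filter_upwards [h1] with n hn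
    exact hm ((dl_lt_iff _ _ _).1 hn)
  · intro h
    rw [Metric.tendsto_nhds]
    intro ε hε
    obtain ⟨m, hm⟩ := exists_pow_lt_of_lt_one hε (show (1 / 2 : ℝ) < 1 by norm_num)
    have h1 : ∀ᶠ n in atTop, s n ∈ {y : Cfg d | Ag m y x} := h.eventually_mem ((isOpen_ag m x).mem_nhds (Ag.refl m x))
    filter_upwards [h1] with n hn
    rw [Real.dist_eq, sub_zero, abs_of_nonneg (dl_nonneg _ _)]
    exact ((dl_lt_iff _ _ _).2 hn).trans hm

theorem compactDl_iff {X : Set (Cfg d)} : CompactDl X ↔ IsCompact X := by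
  rw [isCompact_iff_isSeqCompact]
  constructor
  · intro h s hs
    obtain ⟨x, hx, φ, hφ, ht⟩ := h s hs
    exact ⟨x, hx, φ, hφ, tendsto_dl_iff.1 ht⟩
  · intro h s hs
    obtain ⟨x, hx, φ, hφ, ht⟩ := h hs
    exact ⟨x, hx, φ, hφ, tendsto_dl_iff.2 ht⟩

theorem Shift.isCompact (X : Shift d) : IsCompact X.carrier := compactDl_iff.1 X.compact

theorem Shift.isClosed (X : Shift d) : IsClosed X.carrier := X.isCompact.isClosed

theorem Shift.ext' {X Y : Shift d} (h : X.carrier = Y.carrier) : X = Y := by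
  cases X
  cases Y
  cases h
  rfl

/-- the union of two shifts -/
def Shift.un (X Y : Shift d) : Shift d where
  carrier := X.carrier ∪ Y.carrier
  nonempty := X.nonempty.inl
  alphabet := by
    classical
    obtain ⟨A, hA⟩ := X.alphabet
    obtain ⟨B, hB⟩ := Y.alphabet
    refine ⟨A ∪ B, ?_⟩
    rintro x (hx | hx) v
    · exact Finset.mem_union_left _ (hA x hx v)
    · exact Finset.mem_union_right _ (hB x hx v)
  compact := compactDl_iff.2 (X.isCompact.union Y.isCompact)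
  invariant := by
    rintro u x (hx | hx)
    · exact Or.inl (X.invariant u x hx)
    · exact Or.inr (Y.invariant u x hx)

end Pool.Agent.H48.CBR
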