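import Mathlib

/-!
# The space of multidimensional shifts and its Cantor-Bendixson rank: definitions
-/

set_option autoImplicit false

namespace Pool.Agent.H48.CBR

open Filter Topology Set

/-- A configuration is a map from `ℤ^d` to `ℤ`. -/
abbrev Cfg (d : ℕ) : Type := (Fin d → ℤ) → ℤ

/-- The maximum norm on `ℤ^d`. -/
def nrm {d : ℕ} (v : Fin d → ℤ) : ℕ := Finset.univ.sup fun i => (v i).natAbs

open Classical in
/-- The distance `δ(x,y) = 2^{-inf {‖n‖ : x_n ≠ y_n}}`, with `δ(x,x) = 0`. -/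
noncomputable def dl {d : ℕ} (x y : Cfg d) : ℝ :=
  if x = y then 0 else (1 / 2 : ℝ) ^ sInf {k : ℕ | ∃ v, nrm v = k ∧ x v ≠ y v}

/-- The translation `(σ^u x)_v = x_{u+v}`. -/
def sh {d : ℕ} (u : Fin d → ℤ) (x : Cfg d) : Cfg d := fun v => x (u + v)

/-- `X` is compact for `δ` (every sequence in `X` has a subsequence which converges to a point of `X`). -/
def CompactDl {d : ℕ} (X : Set (Cfg d)) : Prop :=
  ∀ s : ℕ → Cfg d, (∀ n, s n ∈ X) →
    ∃ x ∈ X, ∃ φ : ℕ → ℕ, StrictMono φ ∧ Tendsto (fun n => dl (s (φ n)) x) atTop (𝓝 0)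

/-- A `d`-dimensional shift: a nonempty set of configurations with values in some finite alphabet, which is compact
for `δ` and invariant under the translations. -/
structure Shift (d : ℕ) : Type where
  carrier : Set (Cfg d)
  nonempty : carrier.Nonempty
  alphabet : ∃ A : Finset ℤ, ∀ x ∈ carrier, ∀ v, x v ∈ A
  compact : CompactDl carrier
  invariant : ∀ u, ∀ x ∈ carrier, sh u x ∈ carrier

/-- The Hausdorff distance `δ_H` induced by `δ`. -/
noncomputable def hd {d : ℕ} (X Y : Shift d) : ℝ :=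
  max (⨆ x : X.carrier, ⨅ y : Y.carrier, dl x.1 y.1) (⨆ y : Y.carrier, ⨅ x : X.carrier, dl x.1 y.1)

/-- The set `S'` of the non-isolated points of a subspace `S` of the space of `d`-dimensional shifts. -/
def der {d : ℕ} (S : Set (Shift d)) : Set (Shift d) :=
  {X | X ∈ S ∧ ∀ ε : ℝ, 0 < ε → ∃ Y ∈ S, Y ≠ X ∧ hd X Y < ε}

/-- The Cantor-Bendixson derivatives of the space of `d`-dimensional shifts: `CB d 0` is the whole space,
`CB d (α + 1) = (CB d α)'`, and `CB d λ` is the intersection of the `CB d α`, `α < λ`, if `λ` is a limit ordinal. -/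
noncomputable def CB (d : ℕ) (α : Ordinal.{0}) : Set (Shift d) :=
  Ordinal.limitRecOn α univ (fun _ S => der S) (fun l _ ih => ⋂ β : {β // β < l}, ih β.1 β.2)

/-- The Cantor-Bendixson rank of the space of `d`-dimensional shifts: the least ordinal `α` for which
`CB d (α + 1) = CB d α`. -/
noncomputable def rank (d : ℕ) : Ordinal.{0} := sInf {α | CB d (α + 1) = CB d α}

theorem CB_zero (d : ℕ) : CB d 0 = univ := Ordinal.limitRecOn_zero _ _ _

theorem CB_succ (d : ℕ) (α : Ordinal.{0}) : CB d (α + 1) = der (CB d α) := Ordinal.limitRecOn_add_one _ _ _ _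

theorem CB_limit (d : ℕ) {l : Ordinal.{0}} (h : Order.IsSuccLimit l) : CB d l = ⋂ β : {β // β < l}, CB d β.1 :=
  Ordinal.limitRecOn_limit _ _ _ _ h

end Pool.Agent.H48.CBR
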