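import Pool.Agent.H48.CBR.X23b

/-!
# Periodic points of the symbolic `×2 ×3` system
-/

set_option autoImplicit false

namespace Pool.Agent.H48.CBR

open Filter Topology Set

/-- the orbit -/
def orb (x : XX) : Set XX := range fun m : ℤ × ℤ => S23.a m x

/-- points with finite orbit -/
def Per : Set XX := {x | (orb x).Finite}

theorem mem_orb (x : XX) : x ∈ orb x := ⟨0, S23.zero x⟩

theorem orb_inv {x y : XX} (h : y ∈ orb x) (m : ℤ × ℤ) : S23.a m y ∈ orb x := by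
  obtain ⟨n, rfl⟩ := h
  exact ⟨m + n, S23.add _ _ _⟩

theorem orb_trans {x y z : XX} (hy : y ∈ orb x) (hz : z ∈ orb x) : ∃ m, S23.a m y = z := by
  obtain ⟨n, rfl⟩ := hy
  obtain ⟨k, rfl⟩ := hz
  refine ⟨k - n, ?_⟩
  change S23.a (k - n) (S23.a n x) = _
  rw [← S23.add, sub_add_cancel]

theorem ar (N r a b : ℕ) (hN : 0 < N) (hab : 6 = a * b) (hb : 0 < b) :
    6 * ((a * r) % N) / N = (a * (6 * r / N) + (6 * ((6 * r) % N) / N) / b) % 6 := by
  have h1 := Nat.div_add_mod (6 * r) N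
  have h2 := Nat.div_add_mod (a * r) N
  set q := 6 * r / N with hq
  set s := (6 * r) % N with hs
  set q2 := a * r / N with hq2
  set s2 := (a * r) % N with hs2
  have h3 : 6 * s / N / b = a * s / N := by
    rw [Nat.div_div_eq_div_mul, hab, show a * b * s = a * s * b by ring, Nat.mul_div_mul_right _ _ hb]
  have h4 : 6 * s2 / N + 6 * q2 = a * q + a * s / N := by
    have h5 : 6 * s2 + N * (6 * q2) = a * s + N * (a * q) := by
      calc 6 * s2 + N * (6 * q2) = 6 * (N * q2 + s2) := by ring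
        _ = 6 * (a * r) := by rw [h2]
        _ = a * (6 * r) := by ring
        _ = a * (N * q + s) := by rw [h1]
        _ = a * s + N * (a * q) := by ring
    have h6 : (6 * s2 + N * (6 * q2)) / N = (a * s + N * (a * q)) / N := by rw [h5]
    rw [Nat.add_mul_div_left _ _ hN, Nat.add_mul_div_left _ _ hN] at h6
    rw [h6, add_comm]
  have h5 : 6 * s2 / N < 6 := by
    rw [Nat.div_lt_iff_lt_mul hN]
    have := Nat.mod_lt (a * r) hN
    omega
  rw [h3, ← h4, Nat.add_mul_mod_self_left, Nat.mod_eq_of_lt h5]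

theorem val_nat_mul {N : ℕ} [NeZero N] (k : ℕ) (a : ZMod N) : ((k : ZMod N) * a).val = (k * a.val) % N := by
  conv_lhs => rw [← ZMod.natCast_zmod_val a]
  rw [← Nat.cast_mul, ZMod.val_natCast]

/-- the periodic configurations -/
def cf (N : ℕ) [NeZero N] (U2 U3 : (ZMod N)ˣ) (h2 : (U2 : ZMod N) = (2 : ℕ)) (h3 : (U3 : ZMod N) = (3 : ℕ))
    (g : (ZMod N)ˣ) : XX :=
  ⟨fun i j => ⟨6 * ((g * U2 ^ i * U3 ^ j : (ZMod N)ˣ) : ZMod N).val / N, by
    rw [Nat.div_lt_iff_lt_mul (NeZero.pos N)]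
    have := ZMod.val_lt ((g * U2 ^ i * U3 ^ j : (ZMod N)ˣ) : ZMod N)
    omega⟩, by
    intro i j
    have e1 : ((g * U2 ^ (i + 1) * U3 ^ j : (ZMod N)ˣ) : ZMod N) = (2 : ℕ) * ((g * U2 ^ i * U3 ^ j : (ZMod N)ˣ) : ZMod N) := by
      rw [← h2, ← Units.val_mul, zpow_add_one]
      congr 1
      ac_rfl
    have e2 : ((g * U2 ^ i * U3 ^ (j + 1) : (ZMod N)ˣ) : ZMod N) = (3 : ℕ) * ((g * U2 ^ i * U3 ^ j : (ZMod N)ˣ) : ZMod N) := by
      rw [← h3, ← Units.val_mul, zpow_add_one, ← mul_assoc, mul_comm U3]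
    have e3 : ((g * U2 ^ (i + 1) * U3 ^ (j + 1) : (ZMod N)ˣ) : ZMod N) =
        (6 : ℕ) * ((g * U2 ^ i * U3 ^ j : (ZMod N)ˣ) : ZMod N) := by
      have : ((6 : ℕ) : ZMod N) = (2 : ℕ) * (3 : ℕ) := by norm_num
      rw [this, ← h2, ← h3, ← Units.val_mul, ← Units.val_mul, zpow_add_one, zpow_add_one]
      congr 1
      ac_rfl
    simp only
    rw [e1, e2, e3, val_nat_mul, val_nat_mul, val_nat_mul]
    exact ⟨ar N _ 2 3 (NeZero.pos N) (by norm_num) (by norm_num),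
      ar N _ 3 2 (NeZero.pos N) (by norm_num) (by norm_num)⟩⟩

theorem cf_per (N : ℕ) [NeZero N] (U2 U3 : (ZMod N)ˣ) (h2 : (U2 : ZMod N) = (2 : ℕ)) (h3 : (U3 : ZMod N) = (3 : ℕ))
    (g : (ZMod N)ˣ) : cf N U2 U3 h2 h3 g ∈ Per := by
  refine (finite_range (cf N U2 U3 h2 h3)).subset ?_
  rintro _ ⟨m, rfl⟩
  refine ⟨g * U2 ^ m.1 * U3 ^ m.2, ?_⟩
  apply Subtype.ext
  funext i j
  apply Fin.ext
  change 6 * ((g * U2 ^ m.1 * U3 ^ m.2 * U2 ^ i * U3 ^ j : (ZMod N)ˣ) : ZMod N).val / N =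
    6 * ((g * U2 ^ (m.1 + i) * U3 ^ (m.2 + j) : (ZMod N)ˣ) : ZMod N).val / N
  have : g * U2 ^ m.1 * U3 ^ m.2 * U2 ^ i * U3 ^ j = g * U2 ^ (m.1 + i) * U3 ^ (m.2 + j) := by
    rw [zpow_add, zpow_add]
    ac_rfl
  rw [this]

theorem exists_per (m : ℕ) : ∃ x ∈ Per, (x.1 (m + 1 : ℕ) (m + 1 : ℕ) : ℕ) = 5 ∧
    ∀ k : ℕ, k ≤ m → (x.1 k k : ℕ) = 0 := by
  set N := 6 ^ (m + 1) + 1 with hN
  have : NeZero N := ⟨by omega⟩
  have h66 : 6 ^ (m + 1) = 6 * 6 ^ m := by ring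
  have hp6 : 1 ≤ 6 ^ m := Nat.one_le_pow _ _ (by norm_num)
  have c2 : Nat.Coprime 2 N := by
    rw [Nat.coprime_two_left, Nat.odd_iff]
    omega
  have c3 : Nat.Coprime 3 N := by
    rw [Nat.Prime.coprime_iff_not_dvd Nat.prime_three]
    omega
  set U2 := ZMod.unitOfCoprime 2 c2 with hU2
  set U3 := ZMod.unitOfCoprime 3 c3 with hU3
  have h2 : (U2 : ZMod N) = (2 : ℕ) := ZMod.coe_unitOfCoprime 2 c2
  have h3 : (U3 : ZMod N) = (3 : ℕ) := ZMod.coe_unitOfCoprime 3 c3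
  have hdiag : ∀ k : ℕ, k ≤ m + 1 → ((cf N U2 U3 h2 h3 1).1 k k : ℕ) = 6 * 6 ^ k / N := by
    intro k hk
    change 6 * ((1 * U2 ^ (k : ℤ) * U3 ^ (k : ℤ) : (ZMod N)ˣ) : ZMod N).val / N = _
    have : ((1 * U2 ^ (k : ℤ) * U3 ^ (k : ℤ) : (ZMod N)ˣ) : ZMod N) = ((6 ^ k : ℕ) : ZMod N) := by
      rw [one_mul, zpow_natCast, zpow_natCast, ← mul_pow, Units.val_pow_eq_pow_val, Units.val_mul, h2, h3]
      push_cast
      norm_num
    rw [this, ZMod.val_natCast, Nat.mod_eq_of_lt]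
    have : 6 ^ k ≤ 6 ^ (m + 1) := Nat.pow_le_pow_right (by norm_num) hk
    omega
  refine ⟨cf N U2 U3 h2 h3 1, cf_per _ _ _ _ _ _, ?_, ?_⟩
  · rw [hdiag _ le_rfl, Nat.div_eq_iff (by omega)]
    omega
  · intro k hk
    rw [hdiag _ (by omega)]
    apply Nat.div_eq_of_lt
    have : 6 ^ (k + 1) ≤ 6 ^ (m + 1) := Nat.pow_le_pow_right (by norm_num) (by omega)
    rw [pow_succ] at this
    omega

theorem per_infinite : Per.Infinite := by
  choose f hf h5 h0 using exists_per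
  refine Set.infinite_of_injective_forall_mem (f := f) ?_ hf
  intro a b hab
  rcases lt_trichotomy a b with h | h | h
  · have h1 := h5 a
    have h2 := h0 b (a + 1) (by omega)
    rw [hab, h2] at h1
    omega
  · exact h
  · have h1 := h5 b
    have h2 := h0 a (b + 1) (by omega)
    rw [hab] at h2
    rw [h2] at h1
    omega

/-- all but finitely many orbits meet a given nonempty open set -/
theorem miss_finite {O : Set XX} (hO : IsOpen O) (hne : O.Nonempty) : {x | ∀ m, S23.a m x ∉ O}.Finite := by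
  let F : CI S23 :=
    { carrier := {x | ∀ m, S23.a m x ∉ O}
      closed := by
        have : {x | ∀ m, S23.a m x ∉ O} = ⋂ m, S23.a m ⁻¹' Oᶜ := by ext x; simp
        rw [this]
        exact isClosed_iInter fun m => hO.isClosed_compl.preimage (S23.cont m)
      inv := fun m x hx n => by
        rw [← S23.add]
        exact hx _ }
  refine finite_of_ne_univ F fun h => ?_
  obtain ⟨x, hx⟩ := hne
  have : x ∈ F.carrier := h ▸ mem_univ x
  have h0 := this 0
  rw [S23.zero] at h0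
  exact h0 hx

theorem isOpen_agX (M : ℕ) (y : XX) : IsOpen {z | AgX M z y} := by
  have : {z | AgX M z y} = ⋂ i ∈ Icc (-(M : ℤ)) M, ⋂ j ∈ Icc (-(M : ℤ)) M, {z : XX | z.1 i j = y.1 i j} := by
    ext z
    simp only [AgX, mem_ofPred_eq, mem_iInter, mem_Icc]
    constructor
    · intro h i hi j hj
      exact h i j (by omega) (by omega)
    · intro h i j hi hj
      exact h i ⟨by omega, by omega⟩ j ⟨by omega, by omega⟩
  rw [this]
  refine (finite_Icc _ _).isOpen_biInter fun i _ => (finite_Icc _ _).isOpen_biInter fun j _ => ?_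
  exact (isOpen_discrete ({y.1 i j} : Set (Fin 6))).preimage (cont_eval i j)

/-- all but finitely many orbits are dense at a given scale -/
theorem coarse_finite (M : ℕ) : {x | ∃ y : XX, ∀ m, ¬ AgX M (S23.a m x) y}.Finite := by
  obtain ⟨t, ht⟩ := isCompact_univ.elim_nhds_subcover (fun y : XX => {z | AgX M z y})
    (fun y _ => (isOpen_agX M y).mem_nhds fun _ _ _ _ => rfl)
  refine (t.finite_toSet.biUnion fun y _ => miss_finite (isOpen_agX M y) ⟨y, fun _ _ _ _ => rfl⟩).subset ?_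
  rintro x ⟨y, hy⟩
  obtain ⟨y', hy', hyy⟩ := mem_iUnion₂.1 (ht.2 (mem_univ y))
  refine mem_iUnion₂.2 ⟨y', hy', fun m hm => hy m ?_⟩
  intro i j hi hj
  rw [hm i j hi hj]
  exact (hyy i j hi hj).symm

/-- nonempty open sets are infinite -/
theorem open_infinite {O : Set XX} (hO : IsOpen O) (hne : O.Nonempty) {F : Set XX} (hF : F.Finite) :
    ∃ z ∈ O, z ∉ F := by
  by_contra hcon
  push Not at hcon
  refine (per_infinite.sdiff (miss_finite hO hne)) (((hF.inter_of_left Per).biUnion fun p hp => hp.2).subset ?_)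
  rintro x ⟨hx, hx2⟩
  simp only [mem_ofPred_eq, not_forall, not_not] at hx2
  obtain ⟨m, hm⟩ := hx2
  have hmx : S23.a m x ∈ orb x := ⟨m, rfl⟩
  refine mem_iUnion₂.2 ⟨S23.a m x, ⟨hcon _ hm, ?_⟩, ?_⟩
  · refine (show (orb x).Finite from hx).subset ?_
    rintro _ ⟨n, rfl⟩
    exact orb_inv hmx n
  · obtain ⟨n, hn⟩ := orb_trans hmx (mem_orb x)
    exact ⟨n, hn⟩

end Pool.Agent.H48.CBR
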