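import Pool.Agent.H48.CBR.Basic
import Pool.Agent.H48.CBR.X23c

/-!
# Products of the symbolic `×2 ×3` system as multidimensional shifts
-/

set_option autoImplicit false

namespace Pool.Agent.H48.CBR

open Filter Topology Set

/-- the product system -/
abbrev Om (k n : ℕ) : Type := (Fin k → XX) × Fin n

/-- the action of `(ℤ²)^k` -/
def SO (k n : ℕ) : Sys (Fin k → ℤ × ℤ) (Om k n) where
  a m w := (fun i => S23.a (m i) (w.1 i), w.2)
  zero w := by simp [S23.zero]
  add m n w := by simp [S23.add]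
  cont m := (continuous_pi fun i => (S23.cont _).comp ((continuous_apply i).comp continuous_fst)).prodMk
    continuous_snd

theorem noeth_SO (k n : ℕ) : WellFoundedLT (CI (SO k n)) := by
  induction k with
  | zero =>
    have : Finite (CI (SO 0 n)) := by
      have : Finite (Set (Om 0 n)) := inferInstance
      exact Finite.of_injective CI.carrier fun _ _ h => CI.ext h
    infer_instance
  | succ k ih =>
    refine noeth_of_surj (T := S23.prod (SO k n)) (S := SO (k + 1) n)
      (fun z => (Fin.cons z.1 z.2.1, z.2.2)) ?_ ?_ (fun m => Fin.cons m.1 m.2) ?_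
      (prod_noeth S23 (SO k n) finite_of_ne_univ ih)
    · refine Continuous.prodMk ?_ (continuous_snd.comp continuous_snd)
      refine continuous_pi fun i => ?_
      refine Fin.cases ?_ (fun i => ?_) i
      · simpa using continuous_fst
      · have h : Continuous fun a : XX × Om k n => a.2.1 i :=
          (continuous_apply i).comp (continuous_fst.comp continuous_snd)
        simpa using h
    · rintro ⟨w, l⟩
      exact ⟨(w 0, Fin.tail w, l), by simp⟩
    · rintro ⟨m, m'⟩ ⟨x, w, l⟩
      simp only [Sys.prod, SO, Prod.mk.injEq, and_true]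
      funext i
      refine Fin.cases ?_ (fun i => ?_) i <;> simp

variable {d k n : ℕ}

/-- the symbols -/
abbrev Sy (k n : ℕ) : Type := (Fin k → Fin 6) × Fin n

/-- an injective coding of the symbols by integers -/
noncomputable def enc (k n : ℕ) (a : Sy k n) : ℤ := ((Fintype.equivFin (Sy k n) a : ℕ) : ℤ)

theorem enc_inj {a b : Sy k n} (h : enc k n a = enc k n b) : a = b := by
  unfold enc at h
  exact (Fintype.equivFin (Sy k n)).injective (Fin.ext (by exact_mod_cast h))

/-- first coordinate of the `i`-th pair -/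
def i0 (hk : 2 * k ≤ d) (i : Fin k) : Fin d := ⟨2 * i, by omega⟩

/-- second coordinate of the `i`-th pair -/
def i1 (hk : 2 * k ≤ d) (i : Fin k) : Fin d := ⟨2 * i + 1, by omega⟩

/-- the configuration of a point -/
noncomputable def Ph (hk : 2 * k ≤ d) (w : Om k n) : Cfg d :=
  fun v => enc k n (fun i => (w.1 i).1 (v (i0 hk i)) (v (i1 hk i)), w.2)

/-- the vector in `ℤ^d` of a family of vectors in `ℤ²` -/
def vec (_hk : 2 * k ≤ d) (m : Fin k → ℤ × ℤ) : Fin d → ℤ := fun j =>
  if h : (j : ℕ) / 2 < k then (if (j : ℕ) % 2 = 0 then (m ⟨(j : ℕ) / 2, h⟩).1 else (m ⟨(j : ℕ) / 2, h⟩).2) else 0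

theorem vec_i0 (hk : 2 * k ≤ d) (m : Fin k → ℤ × ℤ) (i : Fin k) : vec hk m (i0 hk i) = (m i).1 := by
  have h1 : ((i0 hk i : Fin d) : ℕ) / 2 = i := by simp [i0]
  have h2 : ((i0 hk i : Fin d) : ℕ) % 2 = 0 := by simp [i0]
  unfold vec
  rw [dif_pos (by rw [h1]; exact i.2), if_pos h2]
  congr 2
  exact Fin.ext h1

theorem vec_i1 (hk : 2 * k ≤ d) (m : Fin k → ℤ × ℤ) (i : Fin k) : vec hk m (i1 hk i) = (m i).2 := by
  have h1 : ((i1 hk i : Fin d) : ℕ) / 2 = i := by simp only [i1]; omega
  have h2 : ¬ ((i1 hk i : Fin d) : ℕ) % 2 = 0 := by simp only [i1]; omega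
  unfold vec
  rw [dif_pos (by rw [h1]; exact i.2), if_neg h2]
  congr 2
  exact Fin.ext h1

theorem cont_Ph (hk : 2 * k ≤ d) : Continuous (Ph (n := n) hk) := by
  refine continuous_pi fun v => ?_
  have h1 : Continuous fun w : Om k n => ((fun i => (w.1 i).1 (v (i0 hk i)) (v (i1 hk i)), w.2) : Sy k n) := by
    refine Continuous.prodMk ?_ continuous_snd
    exact continuous_pi fun i => (cont_eval _ _).comp ((continuous_apply i).comp continuous_fst)
  have h2 : Continuous (enc k n) := continuous_of_discreteTopology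
  exact h2.comp h1

theorem Ph_inj (hk : 2 * k ≤ d) {w w' : Om k n} (h : Ph hk w = Ph hk w') : w = w' := by
  have h2 : w.2 = w'.2 := by
    have := enc_inj (congrFun h 0)
    exact (Prod.mk.injEq _ _ _ _ ▸ this).2
  have h1 : w.1 = w'.1 := by
    funext i
    apply Subtype.ext
    funext a b
    have h3 := enc_inj (congrFun h (vec hk fun _ => (a, b)))
    have h4 := congrFun (congrArg Prod.fst h3) i
    simp only [vec_i0, vec_i1] at h4
    exact h4
  exact Prod.ext h1 h2

theorem sh_Ph (hk : 2 * k ≤ d) (u : Fin d → ℤ) (w : Om k n) :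
    sh u (Ph hk w) = Ph hk ((SO k n).a (fun i => (u (i0 hk i), u (i1 hk i))) w) := rfl

theorem Ph_a (hk : 2 * k ≤ d) (m : Fin k → ℤ × ℤ) (w : Om k n) :
    Ph hk ((SO k n).a m w) = sh (vec hk m) (Ph hk w) := by
  rw [sh_Ph]
  congr 2
  funext i
  rw [vec_i0, vec_i1]

/-- the shift of a nonempty closed invariant set -/
noncomputable def toSh (hk : 2 * k ≤ d) (C : CI (SO k n)) (hC : C.carrier.Nonempty) : Shift d where
  carrier := Ph hk '' C.carrier
  nonempty := hC.image _
  alphabet := by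
    refine ⟨Finset.univ.image (enc k n), ?_⟩
    rintro _ ⟨w, -, rfl⟩ v
    exact Finset.mem_image_of_mem _ (Finset.mem_univ _)
  compact := compactDl_iff.2 (C.closed.isCompact.image (cont_Ph hk))
  invariant := by
    rintro u _ ⟨w, hw, rfl⟩
    exact ⟨_, C.inv _ _ hw, (sh_Ph hk u w).symm⟩

/-! ### The product is of finite type -/

theorem const_single {α : Type} (g : (Fin d → ℤ) → α) (j : Fin d) (h : ∀ u, g (u + Pi.single j 1) = g u)
    (u : Fin d → ℤ) (z : ℤ) : g (u + Pi.single j z) = g u := by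
  induction z using Int.induction_on with
  | zero => simp
  | succ i ih =>
    rw [Pi.single_add, ← add_assoc, h, ih]
  | pred i ih =>
    have h2 := h (u + Pi.single j (-(i : ℤ) - 1))
    rw [add_assoc, ← Pi.single_add, show (-(i : ℤ) - 1) + 1 = -(i : ℤ) by ring] at h2
    rw [← h2]
    exact ih

theorem const_of {α : Type} (g : (Fin d → ℤ) → α) (s : Finset (Fin d))
    (h : ∀ j ∈ s, ∀ u, g (u + Pi.single j 1) = g u) : ∀ u u' : Fin d → ℤ, (∀ j ∉ s, u j = u' j) → g u = g u' := by
  induction s using Finset.induction_on with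
  | empty =>
    intro u u' huu
    rw [show u = u' from funext fun j => huu j (Finset.notMem_empty j)]
  | insert j s hj ih =>
    intro u u' huu
    have h1 : g (u + Pi.single j (u' j - u j)) = g u :=
      const_single g j (h j (Finset.mem_insert_self j s)) u _
    rw [← h1]
    refine ih (fun j' hj' => h j' (Finset.mem_insert_of_mem hj')) _ _ fun j' hj' => ?_
    by_cases hjj : j' = j
    · subst hjj
      simp
    · rw [Pi.add_apply, Pi.single_eq_of_ne hjj, add_zero]
      exact huu j' (by simp [hjj, hj'])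

theorem nrm_single_le (j : Fin d) : nrm (Pi.single j (1 : ℤ)) ≤ 1 := by
  rw [nrm_le_iff]
  intro i
  by_cases h : i = j
  · subst h
    simp
  · simp [h]

theorem i0_ne_i1 (hk : 2 * k ≤ d) (i : Fin k) : i0 hk i ≠ i1 hk i := by
  intro h
  have := congrArg Fin.val h
  simp only [i0, i1] at this
  omega

theorem sft (hk : 2 * k ≤ d) (Y : Set (Cfg d)) (hY : ∀ u, ∀ y ∈ Y, sh u y ∈ Y)
    (h : ∀ y ∈ Y, ∃ w : Om k n, Ag 1 y (Ph hk w)) : Y ⊆ range (Ph (n := n) hk) := by
  intro y hy
  choose w hw using fun u => h (sh u y) (hY u y hy)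
  -- the symbols
  obtain ⟨s, hs⟩ : ∃ s : (Fin d → ℤ) → Sy k n, ∀ u, s u = (fun i => ((w u).1 i).1 0 0, (w u).2) := ⟨_, fun _ => rfl⟩
  have hys : ∀ u, y u = enc k n (s u) := by
    intro u
    have := hw u 0 (by simp [nrm])
    rw [hs]
    simpa [sh, Ph] using this
  have hsv : ∀ u v, nrm v ≤ 1 → s (u + v) = (fun i => ((w u).1 i).1 (v (i0 hk i)) (v (i1 hk i)), (w u).2) := by
    intro u v hv
    have := hw u v hv
    apply enc_inj
    rw [← hys]
    exact this
  have hs2 : ∀ u u', (s u).2 = (s u').2 := by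
    intro u u'
    refine const_of (fun u => (s u).2) Finset.univ (fun j _ u => ?_) u u' fun j hj => absurd (Finset.mem_univ j) hj
    rw [hsv u _ (nrm_single_le j), hs]
  have hs1 : ∀ (i : Fin k) (u u' : Fin d → ℤ), u (i0 hk i) = u' (i0 hk i) → u (i1 hk i) = u' (i1 hk i) →
      (s u).1 i = (s u').1 i := by
    intro i u u' h0 h1
    refine const_of (fun u => (s u).1 i) (Finset.univ \ {i0 hk i, i1 hk i}) (fun j hj u => ?_) u u' fun j hj => ?_
    · rw [hsv u _ (nrm_single_le j), hs]
      simp only [Finset.mem_sdiff, Finset.mem_univ, true_and, Finset.mem_insert, Finset.mem_singleton, not_or] at hj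
      simp only
      rw [Pi.single_eq_of_ne (Ne.symm hj.1), Pi.single_eq_of_ne (Ne.symm hj.2)]
    · simp only [Finset.mem_sdiff, Finset.mem_univ, true_and, Finset.mem_insert, Finset.mem_singleton, not_not] at hj
      rcases hj with rfl | rfl
      · exact h0
      · exact h1
  let v2 : Fin k → ℤ → ℤ → (Fin d → ℤ) := fun i a b => Pi.single (i0 hk i) a + Pi.single (i1 hk i) b
  have hv0 : ∀ i a b, v2 i a b (i0 hk i) = a := by
    intro i a b
    simp only [v2, Pi.add_apply, Pi.single_eq_same]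
    rw [Pi.single_eq_of_ne (i0_ne_i1 hk i), add_zero]
  have hv1 : ∀ i a b, v2 i a b (i1 hk i) = b := by
    intro i a b
    simp only [v2, Pi.add_apply, Pi.single_eq_same]
    rw [Pi.single_eq_of_ne (i0_ne_i1 hk i).symm, zero_add]
  have hn : ∀ i, nrm (v2 i 1 1) ≤ 1 := by
    intro i
    rw [nrm_le_iff]
    intro j
    simp only [v2, Pi.add_apply]
    by_cases h0 : j = i0 hk i
    · subst h0
      rw [Pi.single_eq_same, Pi.single_eq_of_ne (i0_ne_i1 hk i)]
      simp
    · by_cases h1 : j = i1 hk i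
      · subst h1
        rw [Pi.single_eq_same, Pi.single_eq_of_ne (i0_ne_i1 hk i).symm]
        simp
      · rw [Pi.single_eq_of_ne h0, Pi.single_eq_of_ne h1]
        simp
  let x : Fin k → XX := fun i => ⟨fun a b => (s (v2 i a b)).1 i, by
    intro a b
    have e00 : (s (v2 i a b)).1 i = ((w (v2 i a b)).1 i).1 0 0 := by rw [hs]
    have e10 : (s (v2 i (a + 1) b)).1 i = ((w (v2 i a b)).1 i).1 1 0 := by
      rw [hs1 i _ (v2 i a b + Pi.single (i0 hk i) 1) (by simp [hv0])
        (by rw [Pi.add_apply, hv1, hv1, Pi.single_eq_of_ne (i0_ne_i1 hk i).symm, add_zero]),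
        hsv _ _ (nrm_single_le _)]
      simp only
      rw [Pi.single_eq_same, Pi.single_eq_of_ne (i0_ne_i1 hk i).symm]
    have e01 : (s (v2 i a (b + 1))).1 i = ((w (v2 i a b)).1 i).1 0 1 := by
      rw [hs1 i _ (v2 i a b + Pi.single (i1 hk i) 1)
        (by rw [Pi.add_apply, hv0, hv0, Pi.single_eq_of_ne (i0_ne_i1 hk i), add_zero]) (by simp [hv1]),
        hsv _ _ (nrm_single_le _)]
      simp only
      rw [Pi.single_eq_same, Pi.single_eq_of_ne (i0_ne_i1 hk i)]
    have e11 : (s (v2 i (a + 1) (b + 1))).1 i = ((w (v2 i a b)).1 i).1 1 1 := by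
      rw [hs1 i _ (v2 i a b + v2 i 1 1) (by simp [hv0]) (by simp [hv1]), hsv _ _ (hn i)]
      simp only
      rw [hv0, hv1]
    have hr := ((w (v2 i a b)).1 i).2 0 0
    simp only [zero_add] at hr
    change ((s (v2 i (a + 1) b)).1 i : ℕ) = (2 * ((s (v2 i a b)).1 i : ℕ) +
      ((s (v2 i (a + 1) (b + 1))).1 i : ℕ) / 3) % 6 ∧ ((s (v2 i a (b + 1))).1 i : ℕ) =
      (3 * ((s (v2 i a b)).1 i : ℕ) + ((s (v2 i (a + 1) (b + 1))).1 i : ℕ) / 2) % 6
    rw [e00, e10, e01, e11]
    exact hr⟩
  refine ⟨(x, (s 0).2), ?_⟩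
  funext u
  rw [hys u]
  unfold Ph
  congr 1
  refine Prod.ext ?_ (hs2 0 u)
  funext i
  exact hs1 i _ _ (hv0 i _ _) (hv1 i _ _)

end Pool.Agent.H48.CBR
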