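import Mathlib

/-!
# Systems whose closed invariant sets satisfy the descending chain condition
-/

set_option autoImplicit false

namespace Pool.Agent.H48.CBR

open Filter Topology Set

/-- an action by continuous maps -/
structure Sys (M : Type) [AddMonoid M] (Y : Type) [TopologicalSpace Y] where
  a : M → Y → Y
  zero : ∀ y, a 0 y = y
  add : ∀ m n y, a (m + n) y = a m (a n y)
  cont : ∀ m, Continuous (a m)

/-- closed invariant sets -/
@[ext] structure CI {M Y : Type} [AddMonoid M] [TopologicalSpace Y] (T : Sys M Y) where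
  carrier : Set Y
  closed : IsClosed carrier
  inv : ∀ m, ∀ y ∈ carrier, T.a m y ∈ carrier

instance {M Y : Type} [AddMonoid M] [TopologicalSpace Y] (T : Sys M Y) : PartialOrder (CI T) :=
  PartialOrder.lift CI.carrier fun _ _ h => CI.ext h

/-- the product of two systems -/
def Sys.prod {M N X Y : Type} [AddMonoid M] [AddMonoid N] [TopologicalSpace X] [TopologicalSpace Y]
    (S : Sys M X) (T : Sys N Y) : Sys (M × N) (X × Y) where
  a m z := (S.a m.1 z.1, T.a m.2 z.2)
  zero z := by simp [S.zero, T.zero]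
  add m n z := by simp [S.add, T.add]
  cont m := ((S.cont _).comp continuous_fst).prodMk ((T.cont _).comp continuous_snd)

variable {M N X Y : Type} [AddMonoid M] [AddMonoid N] [TopologicalSpace X] [TopologicalSpace Y]

theorem CI.le_iff {T : Sys N Y} {C D : CI T} : C ≤ D ↔ C.carrier ⊆ D.carrier := Iff.rfl

theorem isolating [CompactSpace Y] [T2Space Y] (T : Sys N Y) (hT : WellFoundedLT (CI T)) (D : CI T) :
    ∃ V : Set Y, IsOpen V ∧ D.carrier ⊆ V ∧ ∀ y, (∀ m, T.a m y ∈ V) → y ∈ D.carrier := by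
  let mk : ∀ N' : Set Y, IsClosed N' → CI T := fun N' hN' =>
    { carrier := {y | ∀ m, T.a m y ∈ N'}
      closed := by
        have : {y | ∀ m, T.a m y ∈ N'} = ⋂ m, T.a m ⁻¹' N' := by ext y; simp
        rw [this]
        exact isClosed_iInter fun m => hN'.preimage (T.cont m)
      inv := fun m y hy n => by
        rw [← T.add]
        exact hy _ }
  let s : Set (CI T) := {C | ∃ (N' : Set Y) (hN' : IsClosed N') (U : Set Y), IsOpen U ∧ D.carrier ⊆ U ∧ U ⊆ N' ∧
    C = mk N' hN'}
  have hs : s.Nonempty := ⟨mk univ isClosed_univ, univ, isClosed_univ, univ, isOpen_univ, subset_univ _,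
    subset_rfl, rfl⟩
  obtain ⟨C0, ⟨N0, hN0, U0, hU0, hD0, hUN0, rfl⟩, hmin⟩ := hT.wf.has_min s hs
  refine ⟨U0, hU0, hD0, fun y hy => ?_⟩
  by_contra hyD
  obtain ⟨U, V, hU, hV, hyU, hDV, hdis⟩ := normal_separation isClosed_singleton D.closed
    (disjoint_singleton_left.2 hyD)
  have hN1 : IsClosed (N0 ∩ Uᶜ) := hN0.inter hU.isClosed_compl
  have hmem : mk (N0 ∩ Uᶜ) hN1 ∈ s := by
    refine ⟨N0 ∩ Uᶜ, hN1, U0 ∩ V, hU0.inter hV, subset_inter hD0 hDV, ?_, rfl⟩
    intro z hz
    exact ⟨hUN0 hz.1, fun hzU => hdis.le_bot ⟨hzU, hz.2⟩⟩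
  have hle : mk (N0 ∩ Uᶜ) hN1 ≤ mk N0 hN0 := fun z hz m => (hz m).1
  have hnot := hmin _ hmem
  have heq : mk (N0 ∩ Uᶜ) hN1 = mk N0 hN0 := by
    by_contra hne
    exact hnot (lt_of_le_of_ne hle hne)
  have hy0 : y ∈ (mk N0 hN0).carrier := fun m => hUN0 (hy m)
  rw [← heq] at hy0
  have h0 := (hy0 0).2
  rw [T.zero] at h0
  exact h0 (hyU rfl)

theorem prod_noeth [CompactSpace Y] [T2Space Y] (S : Sys M X) (T : Sys N Y)
    (hS : ∀ C : CI S, C.carrier ≠ univ → C.carrier.Finite) (hT : WellFoundedLT (CI T)) :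
    WellFoundedLT (CI (S.prod T)) := by
  let gen : CI (S.prod T) → CI T := fun C =>
    { carrier := {y | ∀ x, (x, y) ∈ C.carrier}
      closed := by
        have : {y | ∀ x, (x, y) ∈ C.carrier} = ⋂ x, (fun y => (x, y)) ⁻¹' C.carrier := by ext y; simp
        rw [this]
        exact isClosed_iInter fun x => C.closed.preimage (by fun_prop)
      inv := fun m y hy x => by
        have := C.inv (0, m) _ (hy x)
        simpa [Sys.prod, S.zero] using this }
  let sec : X → CI (S.prod T) → CI T := fun x C =>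
    { carrier := {y | (x, y) ∈ C.carrier}
      closed := C.closed.preimage (f := fun y => (x, y)) (by fun_prop)
      inv := fun m y hy => by
        have := C.inv (0, m) _ hy
        simpa [Sys.prod, S.zero] using this }
  refine ⟨WellFounded.wellFounded_iff_has_min.2 ?_⟩
  intro s hs
  obtain ⟨D, ⟨C0, hC0, rfl⟩, hmin⟩ := hT.wf.has_min (gen '' s) (hs.image gen)
  set E0 : Set X := {x | sec x C0 ≠ gen C0} with hE0
  have hfin : E0.Finite := by
    obtain ⟨V, hV, hDV, hVi⟩ := isolating T hT (gen C0)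
    have hK : IsCompact Vᶜ := hV.isClosed_compl.isCompact
    have hcov : ∀ y ∈ Vᶜ, ∃ (O : Set X) (P : Set Y), IsOpen O ∧ IsOpen P ∧ O.Nonempty ∧ y ∈ P ∧
        Disjoint (O ×ˢ P) C0.carrier := by
      intro y hy
      have : y ∉ (gen C0).carrier := fun h => hy (hDV h)
      simp only [gen, mem_ofPred_eq, not_forall] at this
      obtain ⟨x, hx⟩ := this
      obtain ⟨O, P, hO, hP, hxO, hyP, hsub⟩ := isOpen_prod_iff.1 C0.closed.isOpen_compl x y hx
      refine ⟨O, P, hO, hP, ⟨x, hxO⟩, hyP, ?_⟩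
      rw [Set.disjoint_left]
      exact fun z hz => hsub hz
    choose! O P hO hP hOn hyP hdis using hcov
    obtain ⟨t, ht, htc⟩ := hK.elim_nhds_subcover P fun y hy => (hP y hy).mem_nhds (hyP y hy)
    have hF : ∀ y ∈ t, {x : X | ∀ m, S.a m x ∉ O y}.Finite := by
      intro y hy
      have hy' := ht y hy
      let F : CI S :=
        { carrier := {x : X | ∀ m, S.a m x ∉ O y}
          closed := by
            have : {x : X | ∀ m, S.a m x ∉ O y} = ⋂ m, S.a m ⁻¹' (O y)ᶜ := by ext x; simp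
            rw [this]
            exact isClosed_iInter fun m => (hO y hy').isClosed_compl.preimage (S.cont m)
          inv := fun m x hx n => by
            rw [← S.add]
            exact hx _ }
      refine hS F fun h => ?_
      obtain ⟨x, hx⟩ := hOn y hy'
      have : x ∈ F.carrier := h ▸ mem_univ x
      have h0 := this 0
      rw [S.zero] at h0
      exact h0 hx
    refine (t.finite_toSet.biUnion hF).subset ?_
    intro x hx
    have hle : gen C0 ≤ sec x C0 := fun y hy => hy x
    have hex : ∃ y, (x, y) ∈ C0.carrier ∧ y ∉ (gen C0).carrier := by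
      by_contra hcon
      push Not at hcon
      exact hx (le_antisymm hcon hle)
    obtain ⟨y, hy, hyD⟩ := hex
    have hm : ∃ m, T.a m y ∉ V := by
      by_contra hcon
      push Not at hcon
      exact hyD (hVi y hcon)
    obtain ⟨m, hm⟩ := hm
    have hy2 : (x, T.a m y) ∈ C0.carrier := by
      have := C0.inv (0, m) _ hy
      simpa [Sys.prod, S.zero] using this
    obtain ⟨y1, hy1, hPy⟩ := mem_iUnion₂.1 (htc hm)
    refine mem_iUnion₂.2 ⟨y1, hy1, fun n hn => ?_⟩
    have hy3 : (S.a n x, T.a m y) ∈ C0.carrier := by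
      have := C0.inv (n, 0) _ hy2
      simpa [Sys.prod, T.zero] using this
    exact (Set.disjoint_left.1 (hdis y1 (ht y1 hy1))) ⟨hn, hPy⟩ hy3
  have : Finite E0 := hfin
  let Ψ : CI (S.prod T) → (E0 → CI T) := fun C x => sec x.1 C
  have hwf : WellFoundedLT (E0 → CI T) := inferInstance
  obtain ⟨_, ⟨Cs, ⟨hCs, hCs0⟩, rfl⟩, hmin2⟩ := hwf.wf.has_min (Ψ '' {C | C ∈ s ∧ C ≤ C0})
    ⟨_, C0, ⟨hC0, le_rfl⟩, rfl⟩
  refine ⟨Cs, hCs, fun C hC hlt => ?_⟩
  have hCC0 : C ≤ C0 := hlt.le.trans hCs0
  have h1 : Ψ C = Ψ Cs := by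
    by_contra hne
    refine hmin2 _ ⟨C, ⟨hC, hCC0⟩, rfl⟩ (lt_of_le_of_ne ?_ hne)
    intro x y hy
    exact hlt.le hy
  have h2 : gen C = gen C0 := by
    by_contra hne
    refine hmin _ ⟨C, hC, rfl⟩ (lt_of_le_of_ne ?_ hne)
    intro y hy x
    exact hCC0 (hy x)
  refine hlt.not_ge ?_
  rintro ⟨x, y⟩ hxy
  by_cases hx : x ∈ E0
  · have h3 := congrFun h1 ⟨x, hx⟩
    have h4 : y ∈ (sec x Cs).carrier := hxy
    have h5 : sec x C = sec x Cs := h3
    rw [← h5] at h4
    exact h4
  · have h3 : sec x C0 = gen C0 := by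
      by_contra hne
      exact hx hne
    have h4 : y ∈ (sec x C0).carrier := hCs0 hxy
    rw [h3, ← h2] at h4
    exact h4 x

/-- transfer along a continuous surjection -/
theorem noeth_of_surj {T : Sys N Y} {S : Sys M X} (f : Y → X) (hf : Continuous f) (hsurj : Function.Surjective f)
    (h : N → M) (hfh : ∀ n y, f (T.a n y) = S.a (h n) (f y)) (hT : WellFoundedLT (CI T)) : WellFoundedLT (CI S) := by
  let g : CI S → CI T := fun C =>
    { carrier := f ⁻¹' C.carrier
      closed := C.closed.preimage hf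
      inv := fun m y hy => by
        rw [mem_preimage, hfh]
        exact C.inv _ _ hy }
  have hg : StrictMono g := by
    intro C D hCD
    refine lt_of_le_of_ne (fun y hy => hCD.le hy) fun he => hCD.ne ?_
    have : f ⁻¹' C.carrier = f ⁻¹' D.carrier := congrArg CI.carrier he
    exact CI.ext (hsurj.preimage_injective this)
  exact hg.wellFoundedLT

end Pool.Agent.H48.CBR
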