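import Pool.Agent.H48.CBR.X23c

/-!
# The symbolic `×2 ×3` system: finite index subgroups and the action of `×3` alone
-/

set_option autoImplicit false

namespace Pool.Agent.H48.CBR

open Filter Topology Set
open Pool.Agent.H847R3.XpXq

/-- the system where the first generator is replaced by its `m`-th power -/
def Sys.pw {N Y : Type} [AddMonoid N] [TopologicalSpace Y] (T : Sys (ℤ × N) Y) (m : ℕ) : Sys (ℤ × N) Y where
  a g y := T.a ((m : ℤ) * g.1, g.2) y
  zero y := by
    have h : ((m : ℤ) * (0 : ℤ × N).1, (0 : ℤ × N).2) = 0 := by simp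
    rw [h, T.zero]
  add g h y := by
    rw [← T.add]
    congr 1
    ext <;> simp [mul_add]
  cont g := T.cont _

theorem pw_a {N Y : Type} [AddMonoid N] [TopologicalSpace Y] (T : Sys (ℤ × N) Y) (m : ℕ) (g : ℤ × N) (y : Y) :
    (T.pw m).a g y = T.a ((m : ℤ) * g.1, g.2) y := rfl

theorem irr_pow {m : ℕ} (hm : 1 ≤ m) : Irrational (Real.log ((2 ^ m : ℕ) : ℝ) / Real.log (3 : ℕ)) := by
  have h : Real.log ((2 ^ m : ℕ) : ℝ) / Real.log (3 : ℕ) = (m : ℝ) * (Real.log (2 : ℕ) / Real.log (3 : ℕ)) := by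
    push_cast
    rw [Real.log_pow]
    ring
  rw [h]
  exact irr23.natCast_mul (by omega)

theorem two_pow_coe (c : XX) (i j : ℤ) (n : ℕ) :
    (2 ^ n) • ((EE c.1 i j : ℝ) : TT) = ((EE c.1 (i + n) j : ℝ) : TT) := by
  induction n with
  | zero => simp
  | succ n ih =>
    rw [pow_succ, mul_comm, mul_smul, ih, two_coe, show (i + ((n + 1 : ℕ) : ℤ) : ℤ) = i + n + 1 by push_cast; ring]

theorem val_shift (c : XX) (n : ℕ) : val (S23.a ((n : ℤ), 0) c) = (2 ^ n) • val c := by
  rw [val_a]
  have := two_pow_coe c 0 0 n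
  rw [zero_add] at this
  exact this.symm

theorem inj_a (g : ℤ × ℤ) : Function.Injective (S23.a g) := by
  intro x y h
  have : S23.a (-g) (S23.a g x) = S23.a (-g) (S23.a g y) := by rw [h]
  rwa [← S23.add, ← S23.add, neg_add_cancel, S23.zero, S23.zero] at this

theorem finite_pw {m : ℕ} (hm : 1 ≤ m) (C : CI (S23.pw m)) (hC : C.carrier ≠ univ) :
    C.carrier.Finite ∧ C.carrier ⊆ Per := by
  -- the saturation
  let C' : CI S23 :=
    { carrier := ⋃ i ∈ Finset.range m, S23.a (-(i : ℤ), 0) ⁻¹' C.carrier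
      closed := (Finset.finite_toSet _).isClosed_biUnion fun i _ => C.closed.preimage (S23.cont _)
      inv := by
        rintro ⟨p, q⟩ x hx
        obtain ⟨i, hi, hx⟩ := mem_iUnion₂.1 hx
        rw [mem_preimage] at hx
        have hm0 : (0 : ℤ) < m := by exact_mod_cast hm
        have h1 := Int.emod_nonneg (p + i) hm0.ne'
        have h2 := Int.emod_lt_of_pos (p + i) hm0
        have h3 := Int.emod_add_mul_ediv (p + i) m
        refine mem_iUnion₂.2 ⟨((p + i) % m).toNat, Finset.mem_range.2 (by omega), ?_⟩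
        rw [mem_preimage, Int.toNat_of_nonneg h1]
        have h4 := C.inv ((p + i) / m, q) _ hx
        rw [pw_a, ← S23.add] at h4
        rw [← S23.add]
        convert h4 using 2
        ext
        · simp
          linarith
        · simp }
  have hsub : C.carrier ⊆ C'.carrier := by
    intro x hx
    refine mem_iUnion₂.2 ⟨0, Finset.mem_range.2 hm, ?_⟩
    rw [mem_preimage]
    have : ((-((0 : ℕ) : ℤ), 0) : ℤ × ℤ) = 0 := by simp
    rw [this, S23.zero]
    exact hx
  have hper : C'.carrier.Finite → C.carrier.Finite ∧ C.carrier ⊆ Per := by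
    intro h
    refine ⟨h.subset hsub, fun x hx => ?_⟩
    refine h.subset ?_
    rintro _ ⟨g, rfl⟩
    exact C'.inv _ _ (hsub hx)
  by_cases hv : (val '' C.carrier).Finite
  · apply hper
    apply finite_of_val
    have : val '' C'.carrier ⊆ ⋃ i ∈ Finset.range m, (fun t : TT => (2 ^ i) • t) '' (val '' C.carrier) := by
      rintro _ ⟨x, hx, rfl⟩
      obtain ⟨i, hi, hx⟩ := mem_iUnion₂.1 hx
      refine mem_iUnion₂.2 ⟨i, hi, _, ⟨_, hx, rfl⟩, ?_⟩
      change (2 ^ i) • val _ = _
      rw [← val_shift, ← S23.add]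
      have : (((i : ℤ), 0) + (-(i : ℤ), 0) : ℤ × ℤ) = 0 := by simp
      rw [this, S23.zero]
    exact ((Finset.finite_toSet _).biUnion fun i _ => hv.image _).subset this
  · exfalso
    have hclosed : IsClosed (val '' C.carrier) := (C.closed.isCompact.image cont_val).isClosed
    have hinv : Inv (2 ^ m) 3 (val '' C.carrier) := by
      rintro _ ⟨c, hc, rfl⟩
      constructor
      · refine ⟨S23.a ((m : ℤ), 0) c, ?_, ?_⟩
        · have := C.inv (1, 0) _ hc
          rwa [pw_a, mul_one] at this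
        · rw [val_shift]
      · refine ⟨S23.a (0, 1) c, ?_, ?_⟩
        · have := C.inv (0, 1) _ hc
          rwa [pw_a, mul_zero] at this
        · rw [val_a]
          have := three_coe c 0 0
          simpa [val] using this.symm
    have huniv := Pool.Agent.R477.XQ.furst (p := 2 ^ m) (q := 3)
      (by calc 2 = 2 ^ 1 := by norm_num
            _ ≤ 2 ^ m := Nat.pow_le_pow_right (by norm_num) hm) (by norm_num) (irr_pow hm) hclosed hinv hv
    apply hC
    rw [eq_univ_iff_forall]
    intro x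
    by_contra hx
    obtain ⟨M0, hM0⟩ := exists_agX_subset C.closed.isOpen_compl hx
    -- a multiple of `m`
    set M := m * M0 with hM
    have hMM : M0 ≤ M := Nat.le_mul_of_pos_left _ hm
    obtain ⟨r, h0, h1, hr⟩ := exists_real (2 * M + 1) fun k => (S23.a (-M, -M) x).1 k k
    have : (r : TT) ∈ val '' C.carrier := huniv ▸ mem_univ _
    obtain ⟨z, hz, hzr⟩ := this
    have hE : EE z.1 0 0 = r := by
      rcases coe_eq_cases (EE_nonneg _ _ _) (EE_le_one _ _ _) h0.le h1.le hzr with h2 | ⟨-, h2⟩ | ⟨-, h2⟩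
      · exact h2
      · linarith
      · linarith
    have hd : ∀ k < 2 * M + 1, z.1 k k = (S23.a (-M, -M) x).1 k k := by
      intro k hk
      have := hr z.1 0 0 hE k hk
      simpa using this
    have hsq := det_square hd
    have hy : S23.a (M, M) z ∈ C.carrier := by
      have := C.inv ((M0 : ℤ), (M : ℤ)) _ hz
      rw [pw_a] at this
      convert this using 2
      simp [hM]
    refine hM0 ?_ hy
    intro i j hi hj
    rw [S23_apply]
    have hx : x.1 i j = (S23.a (-M, -M) x).1 (M + i) (M + j) := by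
      have e1 : (-(M : ℤ)) + (M + i) = i := by ring
      have e2 : (-(M : ℤ)) + (M + j) = j := by ring
      rw [S23_apply]
      change x.1 i j = x.1 (-(M : ℤ) + (M + i)) (-(M : ℤ) + (M + j))
      rw [e1, e2]
    rw [hx]
    change z.1 (M + i) (M + j) = _
    obtain ⟨p, hp⟩ : ∃ p : ℕ, (M : ℤ) + i = p := ⟨((M : ℤ) + i).toNat, (Int.toNat_of_nonneg (by omega)).symm⟩
    obtain ⟨q, hq⟩ : ∃ q : ℕ, (M : ℤ) + j = q := ⟨((M : ℤ) + j).toNat, (Int.toNat_of_nonneg (by omega)).symm⟩
    rw [hp, hq]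
    rcases le_total p q with hpq | hpq
    · obtain ⟨s, rfl⟩ := Nat.exists_eq_add_of_le hpq
      have := (hsq s p (by omega)).2
      simpa using this
    · obtain ⟨s, rfl⟩ := Nat.exists_eq_add_of_le hpq
      have := (hsq s q (by omega)).1
      simpa using this

/-! ### Points which agree with a periodic point on a half plane -/

/-- values of periodic points -/
theorem per_val {f : XX} (hf : f ∈ Per) : (∀ i j, f.1 i j = 0 ∧ EE f.1 i j = 0) ∨
    (∀ i j, f.1 i j = 5 ∧ EE f.1 i j = 1) ∨ ∀ i j, ∀ n : ℕ, 6 * EE f.1 i j ≠ n := by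
  let C : CI S23 :=
    { carrier := orb f
      closed := (show (orb f).Finite from hf).isClosed
      inv := fun m y hy => orb_inv hy m }
  have hfin : (val '' C.carrier).Finite := (show (orb f).Finite from hf).image _
  have hmem : ∀ i j, ((EE f.1 i j : ℝ) : TT) ∈ val '' C.carrier := by
    intro i j
    exact ⟨S23.a (i, j) f, ⟨(i, j), rfl⟩, val_a _ _⟩
  have hC : ∀ t ∈ val '' C.carrier, ∃ i j, t = ((EE f.1 i j : ℝ) : TT) := by
    rintro _ ⟨_, ⟨g, rfl⟩, rfl⟩
    exact ⟨g.1, g.2, val_a _ _⟩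
  have hmaps : MapsTo (fun t : TT => 6 • t) (val '' C.carrier) (val '' C.carrier) := by
    intro t ht
    obtain ⟨i, j, rfl⟩ := hC t ht
    change 6 • ((EE f.1 i j : ℝ) : TT) ∈ _
    rw [six_coe]
    exact hmem _ _
  have hsurj : SurjOn (fun t : TT => 6 • t) (val '' C.carrier) (val '' C.carrier) := by
    intro t ht
    obtain ⟨i, j, rfl⟩ := hC t ht
    refine ⟨_, hmem (i - 1) (j - 1), ?_⟩
    have := six_coe f (i - 1) (j - 1)
    rw [sub_add_cancel, sub_add_cancel] at this
    exact this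
  have hinj : InjOn (fun t : TT => 6 • t) (val '' C.carrier) :=
    ((hfin.surjOn_iff_bijOn_of_mapsTo hmaps).1 hsurj).injOn
  by_cases h : ∀ i j, ∀ n : ℕ, 6 * EE f.1 i j ≠ n
  · exact Or.inr (Or.inr h)
  push Not at h
  obtain ⟨i0, j0, n, hn⟩ := h
  -- some value is zero on the circle
  have h6 : (6 : ℕ) • ((EE f.1 i0 j0 : ℝ) : TT) = 0 := by
    rw [← AddCircle.coe_nsmul, nsmul_eq_mul]
    push_cast
    rw [hn, AddCircle.coe_eq_zero_iff]
    exact ⟨n, by simp⟩
  have hz0 : (0 : TT) ∈ val '' C.carrier := by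
    rw [← h6]
    exact hmaps (hmem i0 j0)
  have hback : ∀ i j, (6 : ℕ) • ((EE f.1 i j : ℝ) : TT) = 0 → ((EE f.1 i j : ℝ) : TT) = 0 := by
    intro i j hij
    apply hinj (hmem i j) hz0
    change (6 : ℕ) • _ = (6 : ℕ) • _
    rw [hij, smul_zero]
  have h00 := hback _ _ h6
  have hdown : ∀ i j, ((EE f.1 i j : ℝ) : TT) = 0 → ∀ n : ℕ, ((EE f.1 (i - n) (j - n) : ℝ) : TT) = 0 := by
    intro i j hij n
    induction n with
    | zero => simpa using hij
    | succ n ih =>
      apply hback
      rw [six_coe]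
      have e1 : i - ((n + 1 : ℕ) : ℤ) + 1 = i - n := by push_cast; ring
      have e2 : j - ((n + 1 : ℕ) : ℤ) + 1 = j - n := by push_cast; ring
      rw [e1, e2, ih]
  have key : ∀ c : ℤ → ℤ → Fin 6, ∀ i j, ((EE c i j : ℝ) : TT) = 0 → EE c i j = 0 ∨ EE c i j = 1 := by
    intro c i j h
    rcases coe_eq_cases (EE_nonneg c i j) (EE_le_one c i j) le_rfl zero_le_one (by simpa using h) with
      h1 | ⟨h1, h2⟩ | ⟨h1, h2⟩
    · exact Or.inl h1
    · norm_num at h2
    · exact Or.inr h1
  have fwd0 : ∀ i j, EE f.1 i j = 0 → EE f.1 (i + 1) j = 0 ∧ EE f.1 i (j + 1) = 0 := by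
    intro i j hij
    have h1 := EE_two f.2 i j
    have h2 := EE_three f.2 i j
    have h3 := (dig_of_zero hij).1
    rw [hij, h3] at h1 h2
    constructor
    · simpa using h1
    · simpa using h2
  have fwd1 : ∀ i j, EE f.1 i j = 1 → EE f.1 (i + 1) j = 1 ∧ EE f.1 i (j + 1) = 1 := by
    intro i j hij
    have h1 := EE_two f.2 i j
    have h2 := EE_three f.2 i j
    have h3 := (dig_of_one hij).1
    rw [hij, h3] at h1 h2
    constructor
    · norm_num at h1
      exact h1
    · norm_num at h2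
      exact h2
  have quad : ∀ (v : ℝ), (∀ i j, EE f.1 i j = v → EE f.1 (i + 1) j = v ∧ EE f.1 i (j + 1) = v) →
      ∀ i j, EE f.1 i j = v → ∀ p q : ℕ, EE f.1 (i + p) (j + q) = v := by
    intro v hv i j hij p q
    have h1 : EE f.1 (i + p) j = v := by
      induction p with
      | zero => simpa using hij
      | succ p ih =>
        have := (hv _ _ ih).1
        rwa [show (i + ((p + 1 : ℕ) : ℤ) : ℤ) = i + p + 1 by push_cast; ring]
    induction q with
    | zero => simpa using h1
    | succ q ih =>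
      have := (hv _ _ ih).2
      rwa [show (j + ((q + 1 : ℕ) : ℤ) : ℤ) = j + q + 1 by push_cast; ring]
  have corner : ∀ i j : ℤ, ∃ n p q : ℕ, i0 - n + p = i ∧ j0 - n + q = j := by
    intro i j
    refine ⟨(i0 - i).natAbs + (j0 - j).natAbs, (i - i0 + ((i0 - i).natAbs + (j0 - j).natAbs : ℕ)).toNat,
      (j - j0 + ((i0 - i).natAbs + (j0 - j).natAbs : ℕ)).toNat, ?_, ?_⟩
    · rw [Int.toNat_of_nonneg (by omega)]
      ring
    · rw [Int.toNat_of_nonneg (by omega)]
      ring
  have all : ∀ i j, EE f.1 i j = EE f.1 i0 j0 := by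
    intro i j
    obtain ⟨n, p, q, rfl, rfl⟩ := corner i j
    have hv0 : ∀ i j, ((EE f.1 i j : ℝ) : TT) = 0 → ∀ i' j', EE f.1 i' j' = EE f.1 i j →
        EE f.1 (i' + 1) j' = EE f.1 i j ∧ EE f.1 i' (j' + 1) = EE f.1 i j := by
      intro i j hz i' j' h
      rcases key _ _ _ hz with h1 | h1
      · rw [h1] at h ⊢
        exact fwd0 _ _ h
      · rw [h1] at h ⊢
        exact fwd1 _ _ h
    have hz := hdown i0 j0 h00 n
    have h1 := quad _ (hv0 _ _ hz) _ _ rfl p q
    have h2 := quad _ (hv0 _ _ hz) _ _ rfl n n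
    rw [h1, ← h2]
    congr 1 <;> ring
  rcases key _ _ _ h00 with h1 | h1
  · left
    intro i j
    have h2 : EE f.1 i j = 0 := (all i j).trans h1
    exact ⟨Fin.ext (by simpa using (dig_of_zero h2).1), h2⟩
  · right; left
    intro i j
    have h2 : EE f.1 i j = 1 := (all i j).trans h1
    exact ⟨Fin.ext (by simpa using (dig_of_one h2).1), h2⟩

/-- if the difference of the values tends to zero fast the values are equal -/
theorem zero_of_bdd3 {f : ℕ → ℝ} (hf : ∀ n, 3 * f n = f (n + 1)) (hb : ∀ n, |f n| ≤ 10) : f 0 = 0 := by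
  have h : ∀ n, f n = 3 ^ n * f 0 := by
    intro n
    induction n with
    | zero => simp
    | succ n ih => rw [← hf, ih, pow_succ]; ring
  by_contra hne
  have hpos : 0 < |f 0| := abs_pos.2 hne
  obtain ⟨n, hn⟩ := pow_unbounded_of_one_lt (10 / |f 0|) (show (1 : ℝ) < 3 by norm_num)
  have := hb n
  rw [h n, abs_mul, abs_of_pos (by positivity : (0 : ℝ) < 3 ^ n)] at this
  rw [div_lt_iff₀ hpos] at hn
  linarith

theorem col_EE {x f : XX} (i : ℤ) (h : ∀ j, x.1 i j = f.1 i j) (j : ℤ) : EE x.1 i j = EE f.1 i j := by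
  have key := zero_of_bdd3 (f := fun n : ℕ => EE x.1 i (j + n) - EE f.1 i (j + n)) ?_ ?_
  · simp only [Nat.cast_zero, add_zero] at key
    linarith
  · intro n
    have h1 := EE_three x.2 i (j + n)
    have h2 := EE_three f.2 i (j + n)
    rw [h (j + n)] at h1
    have e : j + ((n + 1 : ℕ) : ℤ) = j + n + 1 := by push_cast; ring
    simp only [e]
    linarith
  · intro n
    have h1 := EE_nonneg x.1 i (j + n)
    have h2 := EE_le_one x.1 i (j + n)
    have h3 := EE_nonneg f.1 i (j + n)
    have h4 := EE_le_one f.1 i (j + n)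
    rw [abs_le]
    constructor <;> linarith

/-- a column determines the half plane, next to a periodic point -/
theorem half {x f : XX} (hf : f ∈ Per) (h : ∀ j, x.1 0 j = f.1 0 j) (i : ℕ) (j : ℤ) : x.1 i j = f.1 i j := by
  suffices H : ∀ i : ℕ, ∀ j, x.1 i j = f.1 i j from H i j
  intro i
  induction i with
  | zero => simpa using h
  | succ i ih =>
    have h1 : ∀ j, EE x.1 (i + 1) j = EE f.1 (i + 1) j := by
      intro j
      rw [EE_two x.2, EE_two f.2, ih j, col_EE i ih j]
    intro j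
    push_cast
    rcases per_val hf with h2 | h2 | h2
    · have h3 := h1 j
      rw [(h2 _ _).2] at h3
      rw [(h2 _ _).1]
      exact Fin.ext (by simpa using (dig_of_zero h3).1)
    · have h3 := h1 j
      rw [(h2 _ _).2] at h3
      rw [(h2 _ _).1]
      exact Fin.ext (by simpa using (dig_of_one h3).1)
    · have s1 := EE_step x.1 (i + 1) j
      have s2 := EE_step f.1 (i + 1) j
      rw [h1 j] at s1
      have n1 := EE_nonneg x.1 (i + 1 + 1) (j + 1)
      have n2 := EE_le_one x.1 (i + 1 + 1) (j + 1)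
      have n3 := EE_nonneg f.1 (i + 1 + 1) (j + 1)
      have n4 := EE_le_one f.1 (i + 1 + 1) (j + 1)
      have hne := h2 (i + 1) j
      by_contra hc
      have hc' : (x.1 (i + 1) j : ℕ) ≠ (f.1 (i + 1) j : ℕ) := fun h => hc (Fin.ext h)
      rcases lt_or_gt_of_ne hc' with h3 | h3
      · have h4 : ((x.1 (i + 1) j : ℕ) : ℝ) + 1 ≤ (f.1 (i + 1) j : ℕ) := by exact_mod_cast h3
        apply hne (f.1 (i + 1) j : ℕ)
        linarith
      · have h4 : ((f.1 (i + 1) j : ℕ) : ℝ) + 1 ≤ (x.1 (i + 1) j : ℕ) := by exact_mod_cast h3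
        apply hne (x.1 (i + 1) j : ℕ)
        linarith

end Pool.Agent.H48.CBR
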