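import Pool.Agent.H48.CBR.ShA

/-!
# The symbolic `×2 ×3` system: neighbourhoods of finite sets and the action of `×3` alone
-/

set_option autoImplicit false

namespace Pool.Agent.H48.CBR

open Filter Topology Set

theorem iter_fix {G Y : Type} [AddCommGroup G] [TopologicalSpace Y] (T : Sys G Y) {g : G} {y : Y} (h : T.a g y = y)
    (k : ℤ) : T.a (k • g) y = y := by
  have hneg : T.a (-g) y = y := by
    conv_lhs => rw [← h]
    rw [← T.add, neg_add_cancel, T.zero]
  induction k using Int.induction_on with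
  | zero => rw [zero_smul, T.zero]
  | succ i ih => rw [add_smul, T.add, one_smul, h, ih]
  | pred i ih => rw [sub_smul, sub_eq_add_neg, T.add, one_smul, hneg, ih]

theorem per_period {x : XX} (hx : x ∈ Per) (g : ℤ × ℤ) : ∃ M : ℕ, 1 ≤ M ∧ S23.a ((M : ℤ) • g) x = x := by
  have h : ¬ Function.Injective fun n : ℕ => S23.a ((n : ℤ) • g) x := by
    intro hinj
    refine Set.infinite_of_injective_forall_mem hinj (s := orb x) (fun n => ⟨_, rfl⟩) hx
  rw [Function.Injective] at h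
  push Not at h
  obtain ⟨a, b, hab, hne⟩ := h
  wlog hlt : a < b generalizing a b
  · exact this b a hab.symm hne.symm (by omega)
  refine ⟨b - a, by omega, ?_⟩
  have h1 : S23.a (-((a : ℤ) • g)) (S23.a ((a : ℤ) • g) x) = S23.a (-((a : ℤ) • g)) (S23.a ((b : ℤ) • g) x) := by
    have := congrArg (S23.a (-((a : ℤ) • g))) hab
    exact this
  rw [← S23.add, ← S23.add, neg_add_cancel, S23.zero] at h1
  rw [Nat.cast_sub hlt.le, sub_smul, sub_eq_add_neg, add_comm]
  exact h1.symm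

theorem per_of_orb {x y : XX} (hx : x ∈ Per) (hy : y ∈ orb x) : y ∈ Per := by
  refine (show (orb x).Finite from hx).subset ?_
  rintro _ ⟨n, rfl⟩
  exact orb_inv hy n

/-- periodic points which agree on a half plane are equal -/
theorem per_of_half {x f : XX} (hx : x ∈ Per) (hf : f ∈ Per) (h : ∀ (i : ℕ) (j : ℤ), x.1 i j = f.1 i j) : x = f := by
  obtain ⟨M, hM, h1⟩ := per_period hx (1, 0)
  obtain ⟨N, hN, h2⟩ := per_period hf (1, 0)
  apply Subtype.ext
  funext i j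
  have e1 := iter_fix S23 h1 ((N : ℤ) * i.natAbs)
  have e2 := iter_fix S23 h2 ((M : ℤ) * i.natAbs)
  have e3 : S23.a ((((N : ℤ) * i.natAbs) : ℤ) • ((M : ℤ) • ((1, 0) : ℤ × ℤ))) x = S23.a ((M * N * i.natAbs : ℤ), 0) x := by
    congr 1
    ext
    · simp
      ring
    · simp
  have e4 : S23.a ((((M : ℤ) * i.natAbs) : ℤ) • ((N : ℤ) • ((1, 0) : ℤ × ℤ))) f = S23.a ((M * N * i.natAbs : ℤ), 0) f := by
    congr 1
    ext
    · simp
      ring
    · simp
  rw [e3] at e1
  rw [e4] at e2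
  have hMN : 1 ≤ M * N := Nat.mul_pos hM hN
  have hle : i.natAbs ≤ M * N * i.natAbs := Nat.le_mul_of_pos_left _ hMN
  have hk : ∃ k : ℕ, ((M * N * i.natAbs : ℤ) + i) = k := by
    refine ⟨((M * N * i.natAbs : ℤ) + i).toNat, (Int.toNat_of_nonneg ?_).symm⟩
    have : ((i.natAbs : ℕ) : ℤ) ≤ (M * N * i.natAbs : ℤ) := by exact_mod_cast hle
    omega
  obtain ⟨k, hk⟩ := hk
  have h3 := congrArg (fun c : XX => c.1 i j) e1
  have h4 := congrArg (fun c : XX => c.1 i j) e2
  simp only [S23_apply, zero_add, hk] at h3 h4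
  rw [← h3, ← h4]
  exact h k j

theorem isClosed_agX (M : ℕ) (y : XX) : IsClosed {z | AgX M z y} := by
  have : {z | AgX M z y} = ⋂ i ∈ Icc (-(M : ℤ)) M, ⋂ j ∈ Icc (-(M : ℤ)) M, {z : XX | z.1 i j = y.1 i j} := by
    ext z
    simp only [AgX, mem_ofPred_eq, mem_iInter, mem_Icc]
    constructor
    · intro h i hi j hj
      exact h i j (by omega) (by omega)
    · intro h i j hi hj
      exact h i ⟨by omega, by omega⟩ j ⟨by omega, by omega⟩
  rw [this]
  refine isClosed_biInter fun i _ => isClosed_biInter fun j _ => ?_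
  exact (isClosed_discrete ({y.1 i j} : Set (Fin 6))).preimage (cont_eval i j)

theorem exists_sep {F : Set XX} (hF : F.Finite) : ∃ M : ℕ, ∀ f ∈ F, ∀ g ∈ F, AgX M f g → f = g := by
  have h : ∀ p : XX × XX, ∃ M : ℕ, AgX M p.1 p.2 → p.1 = p.2 := by
    rintro ⟨f, g⟩
    by_cases hfg : f = g
    · exact ⟨0, fun _ => hfg⟩
    · have : ∃ i j, f.1 i j ≠ g.1 i j := by
        by_contra hc
        push Not at hc
        exact hfg (Subtype.ext (funext fun i => funext fun j => hc i j))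
      obtain ⟨i, j, hij⟩ := this
      exact ⟨i.natAbs + j.natAbs, fun ha => absurd (ha i j (by omega) (by omega)) hij⟩
  choose M hM using h
  refine ⟨(hF.toFinset ×ˢ hF.toFinset).sup M, fun f hf g hg ha => hM (f, g) fun i j hi hj => ?_⟩
  have : M (f, g) ≤ (hF.toFinset ×ˢ hF.toFinset).sup M :=
    Finset.le_sup (f := M) (Finset.mem_product.2 ⟨hF.mem_toFinset.2 hf, hF.mem_toFinset.2 hg⟩)
  exact ha i j (by omega) (by omega)

/-- Near a finite `×3`-invariant set of periodic points. -/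
theorem nbhd {F : Set XX} (hF : F.Finite) (hP : F ⊆ Per) (hb : ∀ q : ℤ, ∀ f ∈ F, S23.a (0, q) f ∈ F) :
    ∃ O : Set XX, IsOpen O ∧ IsClosed O ∧ F ⊆ O ∧
      ∀ x, (∀ q : ℤ, S23.a (0, q) x ∈ O) → ∃ f ∈ F, ∀ (i : ℕ) (j : ℤ), x.1 i j = f.1 i j := by
  obtain ⟨M, hM⟩ := exists_sep hF
  refine ⟨⋃ f ∈ F, {x | AgX (M + 1) x f}, isOpen_biUnion fun f _ => isOpen_agX _ _,
    hF.isClosed_biUnion fun f _ => isClosed_agX _ _, fun f hf => mem_iUnion₂.2 ⟨f, hf, fun _ _ _ _ => rfl⟩, ?_⟩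
  intro x hx
  have h1 : ∀ q : ℤ, ∃ f ∈ F, AgX (M + 1) (S23.a (0, q) x) f := fun q => by
    obtain ⟨f, hf, ha⟩ := mem_iUnion₂.1 (hx q)
    exact ⟨f, hf, ha⟩
  choose f hf ha using h1
  have hstep : ∀ q, f (q + 1) = S23.a (0, 1) (f q) := by
    intro q
    refine hM _ (hf _) _ (hb 1 _ (hf q)) fun i j hi hj => ?_
    have h2 := ha (q + 1) i j (by omega) (by omega)
    have h3 := ha q i (1 + j) (by omega) (by omega)
    rw [S23_apply] at h2 h3 ⊢
    simp only [zero_add] at h2 h3 ⊢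
    rw [← h2, ← h3, add_assoc]
  have hall : ∀ q : ℤ, f q = S23.a (0, q) (f 0) := by
    intro q
    induction q using Int.induction_on with
    | zero =>
      have : ((0, 0) : ℤ × ℤ) = 0 := rfl
      rw [this, S23.zero]
    | succ i ih =>
      rw [hstep, ih, ← S23.add]
      congr 1
      ext <;> simp [add_comm]
    | pred i ih =>
      have h2 := hstep (-(i : ℤ) - 1)
      rw [sub_add_cancel, ih] at h2
      have h3 := congrArg (S23.a (0, -1)) h2
      rw [← S23.add, ← S23.add] at h3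
      have e1 : ((0, -1) + (0, 1) : ℤ × ℤ) = 0 := by simp
      have e2 : ((0, -1) + (0, -(i : ℤ)) : ℤ × ℤ) = (0, -(i : ℤ) - 1) := by
        ext
        · simp
        · simp
          ring
      rw [e1, e2, S23.zero] at h3
      exact h3.symm
  refine ⟨f 0, hf 0, half (hP (hf 0)) fun q => ?_⟩
  have h2 := ha q 0 0 (by simp) (by simp)
  rw [hall q, S23_apply, S23_apply] at h2
  simpa using h2

/-- visits to such a neighbourhood at times tending to `-∞` -/
theorem per_of_visits {F O : Set XX} (hF : F.Finite) (hP : F ⊆ Per)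
    (hO : ∀ x, (∀ q : ℤ, S23.a (0, q) x ∈ O) → ∃ f ∈ F, ∀ (i : ℕ) (j : ℤ), x.1 i j = f.1 i j) {x : XX}
    (h : ∀ k0 : ℕ, ∃ k : ℕ, k0 ≤ k ∧ ∀ q : ℤ, S23.a (-(k : ℤ), q) x ∈ O) : x ∈ Per := by
  set F' : Set XX := ⋃ f ∈ F, orb f with hF'
  have hfin : F'.Finite := hF.biUnion fun f hf => hP hf
  have h1 : ∀ k0 : ℕ, ∃ k : ℕ, k0 ≤ k ∧ ∃ g ∈ F', ∀ i j : ℤ, -(k : ℤ) ≤ i → x.1 i j = g.1 i j := by
    intro k0
    obtain ⟨k, hk, hq⟩ := h k0
    obtain ⟨f, hf, hfx⟩ := hO (S23.a (-(k : ℤ), 0) x) fun q => by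
      rw [← S23.add]
      have : ((0, q) + (-(k : ℤ), 0) : ℤ × ℤ) = (-(k : ℤ), q) := by simp
      rw [this]
      exact hq q
    refine ⟨k, hk, S23.a ((k : ℤ), 0) f, mem_iUnion₂.2 ⟨f, hf, ⟨_, rfl⟩⟩, fun i j hi => ?_⟩
    have h2 := hfx ((k : ℤ) + i).toNat j
    rw [Int.toNat_of_nonneg (by omega), S23_apply] at h2
    rw [S23_apply, ← add_assoc] at *
    simpa using h2
  have h2 : ∃ g ∈ F', ∀ k0 : ℕ, ∃ k : ℕ, k0 ≤ k ∧ ∀ i j : ℤ, -(k : ℤ) ≤ i → x.1 i j = g.1 i j := by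
    by_contra hc
    push Not at hc
    choose! kk hkk using hc
    obtain ⟨k, hk, g, hg, hgx⟩ := h1 (hfin.toFinset.sup kk)
    obtain ⟨i, j, hi, hne⟩ := hkk g hg k ((Finset.le_sup (f := kk) (hfin.mem_toFinset.2 hg)).trans hk)
    exact hne (hgx i j hi)
  obtain ⟨g, hg, hgx⟩ := h2
  have he : x = g := by
    apply Subtype.ext
    funext i j
    obtain ⟨k, hk, h3⟩ := hgx i.natAbs
    exact h3 i j (by omega)
  rw [he]
  obtain ⟨f, hf, hgf⟩ := mem_iUnion₂.1 hg
  exact per_of_orb (hP hf) hgf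

/-- closed sets of periodic points which are invariant under `×3` are finite -/
theorem closed_per_finite {G : Set XX} (hG : IsClosed G) (hb : ∀ q : ℤ, ∀ x ∈ G, S23.a (0, q) x ∈ G)
    (hP : G ⊆ Per) : G.Finite := by
  by_contra hinf
  obtain ⟨z, hz, hacc⟩ := Set.Infinite.exists_accPt_of_subset_isCompact hinf hG.isCompact subset_rfl
  set F : Set XX := range fun q : ℤ => S23.a (0, q) z with hF
  have hFfin : F.Finite := (show (orb z).Finite from hP hz).subset (by rintro _ ⟨q, rfl⟩; exact ⟨_, rfl⟩)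
  have hFP : F ⊆ Per := by
    rintro _ ⟨q, rfl⟩
    exact per_of_orb (hP hz) ⟨_, rfl⟩
  have hFb : ∀ q : ℤ, ∀ f ∈ F, S23.a (0, q) f ∈ F := by
    rintro q _ ⟨r, rfl⟩
    refine ⟨q + r, ?_⟩
    change _ = S23.a (0, q) (S23.a (0, r) z)
    rw [← S23.add]
    simp
  obtain ⟨O, hO, hOc, hFO, hOF⟩ := nbhd hFfin hFP hFb
  let A : ℕ → Set XX := fun L => {v | v ∈ G ∧ (∀ j ≤ L, S23.a (0, -(j : ℤ)) v ∈ O) ∧ S23.a (0, 1) v ∉ O}
  have hAc : ∀ L, IsClosed (A L) := by
    intro L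
    have : A L = G ∩ ((⋂ j ∈ Finset.range (L + 1), S23.a (0, -(j : ℤ)) ⁻¹' O) ∩ S23.a (0, 1) ⁻¹' Oᶜ) := by
      ext v
      simp only [A, mem_ofPred_eq, mem_inter_iff, mem_iInter, Finset.mem_range, mem_preimage, mem_compl_iff,
        Nat.lt_succ_iff]
    rw [this]
    exact hG.inter ((isClosed_biInter fun j _ => hOc.preimage (S23.cont _)).inter
      (hO.isClosed_compl.preimage (S23.cont _)))
  have hAn : ∀ L, (A L).Nonempty := by
    intro L
    set U : Set XX := ⋂ j ∈ Finset.range (L + 2), S23.a (0, (j : ℤ)) ⁻¹' O with hU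
    have hUo : IsOpen U := (Finset.finite_toSet _).isOpen_biInter fun j _ => hO.preimage (S23.cont _)
    have hzU : z ∈ U := by
      rw [hU, mem_iInter₂]
      intro j _
      exact hFO ⟨j, rfl⟩
    have hV : IsOpen (U \ (F \ {z})) := hUo.sdiff (hFfin.subset sdiff_subset).isClosed
    have hzV : z ∈ U \ (F \ {z}) := ⟨hzU, fun h => h.2 rfl⟩
    obtain ⟨w, ⟨hwV, hwG⟩, hwz⟩ := accPt_iff_nhds.1 hacc _ (hV.mem_nhds hzV)
    have hwF : w ∉ F := fun h => hwV.2 ⟨h, hwz⟩
    have hex : ∃ n : ℕ, S23.a (0, (n : ℤ)) w ∉ O := by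
      by_contra hc
      push Not at hc
      obtain ⟨M, hM, hMw⟩ := per_period (hP hwG) (0, 1)
      obtain ⟨f, hf, hfw⟩ := hOF w fun q => by
        have h1 := iter_fix S23 hMw (q.natAbs)
        have h2 : S23.a (0, q) w = S23.a (0, ((q + M * q.natAbs).toNat : ℤ)) w := by
          have hle : q.natAbs ≤ M * q.natAbs := Nat.le_mul_of_pos_left _ hM
          have hle' : ((q.natAbs : ℕ) : ℤ) ≤ (M : ℤ) * q.natAbs := by exact_mod_cast hle
          rw [Int.toNat_of_nonneg (by omega)]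
          conv_lhs => rw [← h1]
          rw [← S23.add]
          congr 1
          ext
          · simp
          · simp
            ring
        rw [h2]
        exact hc _
      apply hwF
      rw [per_of_half (hP hwG) (hFP hf) hfw]
      exact hf
    classical
    have hn0 := Nat.find_spec hex
    have hn1 : ∀ m < Nat.find hex, S23.a (0, (m : ℤ)) w ∈ O := fun m hm => not_not.1 (Nat.find_min hex hm)
    set n0 := Nat.find hex with hn0d
    have hbig : L + 2 ≤ n0 := by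
      by_contra hc
      push Not at hc
      have := mem_iInter₂.1 hwV.1 n0 (Finset.mem_range.2 hc)
      exact hn0 this
    refine ⟨S23.a (0, (n0 : ℤ) - 1) w, hb _ _ hwG, fun j hj => ?_, ?_⟩
    · rw [← S23.add]
      have h1 := hn1 (n0 - 1 - j) (by omega)
      have h2 : ((0, -(j : ℤ)) + (0, (n0 : ℤ) - 1) : ℤ × ℤ) = (0, ((n0 - 1 - j : ℕ) : ℤ)) := by
        ext
        · simp
        · simp only [Prod.snd_add]
          omega
      rw [h2]
      exact h1
    · rw [← S23.add]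
      have h2 : ((0, 1) + (0, (n0 : ℤ) - 1) : ℤ × ℤ) = (0, (n0 : ℤ)) := by
        ext
        · simp
        · simp only [Prod.snd_add]
          omega
      rw [h2]
      exact hn0
  have hAd : ∀ L, A (L + 1) ⊆ A L := fun L v hv => ⟨hv.1, fun j hj => hv.2.1 j (by omega), hv.2.2⟩
  obtain ⟨v, hv⟩ := IsCompact.nonempty_iInter_of_sequence_nonempty_isCompact_isClosed A hAd hAn
    (hAc 0).isCompact hAc
  rw [mem_iInter] at hv
  obtain ⟨M, hM, hMv⟩ := per_period (hP (hv 0).1) (0, 1)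
  apply (hv 0).2.2
  have h1 := (hv (M - 1)).2.1 (M - 1) le_rfl
  have h2 : S23.a (0, 1) v = S23.a (0, -((M - 1 : ℕ) : ℤ)) v := by
    conv_lhs => rw [← iter_fix S23 hMv (-1)]
    rw [← S23.add]
    congr 1
    ext
    · simp
    · simp
      omega
  rw [h2]
  exact h1

end Pool.Agent.H48.CBR
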