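import Pool.Agent.H48.CBR.ShB

/-!
# Products over a common generator
-/

set_option autoImplicit false

namespace Pool.Agent.H48.CBR

open Filter Topology Set

/-- the product with the symbolic `×2 ×3` system, over the first generator -/
def SP {N Y : Type} [AddCommGroup N] [TopologicalSpace Y] (T : Sys (ℤ × N) Y) : Sys (ℤ × (ℤ × N)) (XX × Y) where
  a g z := (S23.a (g.1, g.2.1) z.1, T.a (g.1, g.2.2) z.2)
  zero z := by
    have h1 : (((0 : ℤ × (ℤ × N)).1, (0 : ℤ × (ℤ × N)).2.1) : ℤ × ℤ) = 0 := rfl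
    have h2 : (((0 : ℤ × (ℤ × N)).1, (0 : ℤ × (ℤ × N)).2.2) : ℤ × N) = 0 := rfl
    rw [h1, h2, S23.zero, T.zero]
  add g h z := by
    have h1 : (((g + h).1, (g + h).2.1) : ℤ × ℤ) = (g.1, g.2.1) + (h.1, h.2.1) := rfl
    have h2 : (((g + h).1, (g + h).2.2) : ℤ × N) = (g.1, g.2.2) + (h.1, h.2.2) := rfl
    rw [h1, h2, S23.add, T.add]
  cont g := ((S23.cont _).comp continuous_fst).prodMk ((T.cont _).comp continuous_snd)

theorem SP_a {N Y : Type} [AddCommGroup N] [TopologicalSpace Y] (T : Sys (ℤ × N) Y) (p q : ℤ) (ν : N) (x : XX)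
    (y : Y) : (SP T).a (p, (q, ν)) (x, y) = (S23.a (p, q) x, T.a (p, ν) y) := rfl

/-- the class of systems -/
structure Good {N Y : Type} [AddCommGroup N] [TopologicalSpace Y] (T : Sys (ℤ × N) Y) : Prop where
  noeth : ∀ m : ℕ, 1 ≤ m → WellFoundedLT (CI (T.pw m))
  recur : ∀ m : ℕ, 1 ≤ m → ∀ (y : Y) (U : Set Y), IsOpen U → y ∈ U → ∀ k0 : ℕ, ∃ k : ℕ, k0 ≤ k ∧
    ∃ ν : N, T.a (-((m : ℤ) * k), ν) y ∈ U
  perd : ∀ m : ℕ, 1 ≤ m → ∀ C D : CI (T.pw m), ¬ C ≤ D → ∃ y, y ∈ C.carrier ∧ y ∉ D.carrier ∧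
    ∃ M : ℕ, 1 ≤ M ∧ T.a ((M : ℤ), 0) y = y

section

variable {N Y : Type} [AddCommGroup N] [TopologicalSpace Y] {T : Sys (ℤ × N) Y} {m : ℕ}

/-- the fibres which are full -/
def gen (C : CI ((SP T).pw m)) : CI (T.pw m) where
  carrier := {y | ∀ x, (x, y) ∈ C.carrier}
  closed := by
    have : {y | ∀ x, (x, y) ∈ C.carrier} = ⋂ x, (fun y => (x, y)) ⁻¹' C.carrier := by ext y; simp
    rw [this]
    exact isClosed_iInter fun x => C.closed.preimage (by fun_prop)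
  inv := by
    rintro ⟨p, ν⟩ y hy x
    have h := C.inv (p, (0, ν)) _ (hy (S23.a (-((m : ℤ) * p), 0) x))
    rw [pw_a] at h
    change (S23.a ((m : ℤ) * p, 0) (S23.a (-((m : ℤ) * p), 0) x), T.a ((m : ℤ) * p, ν) y) ∈ _ at h
    rw [← S23.add] at h
    have e : (((m : ℤ) * p, 0) + (-((m : ℤ) * p), 0) : ℤ × ℤ) = 0 := by simp
    rw [e, S23.zero] at h
    exact h

/-- the limit set in the past -/
def lim (T : Sys (ℤ × N) Y) (m : ℕ) (y : Y) : CI (T.pw m) where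
  carrier := ⋂ k0 : ℕ, closure {z | ∃ k : ℕ, k0 ≤ k ∧ ∃ ν : N, z = T.a (-((m : ℤ) * k), ν) y}
  closed := isClosed_iInter fun _ => isClosed_closure
  inv := by
    rintro ⟨p, μ⟩ z hz
    rw [mem_iInter] at hz ⊢
    intro k0
    have h1 := image_closure_subset_closure_image (T.cont ((m : ℤ) * p, μ)) (mem_image_of_mem _ (hz (k0 + p.toNat)))
    refine closure_mono ?_ h1
    rintro _ ⟨_, ⟨k, hk, ν, rfl⟩, rfl⟩
    refine ⟨(k - p).toNat, by omega, μ + ν, ?_⟩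
    rw [← T.add]
    congr 1
    ext
    · simp only [Prod.fst_add]
      rw [Int.toNat_of_nonneg (by omega)]
      ring
    · rfl

theorem mem_lim_iff {y z : Y} : z ∈ (lim T m y).carrier ↔
    ∀ U : Set Y, IsOpen U → z ∈ U → ∀ k0 : ℕ, ∃ k : ℕ, k0 ≤ k ∧ ∃ ν : N, T.a (-((m : ℤ) * k), ν) y ∈ U := by
  simp only [lim, mem_iInter, mem_closure_iff]
  constructor
  · intro h U hU hz k0
    obtain ⟨w, hw, k, hk, ν, rfl⟩ := h k0 U hU hz
    exact ⟨k, hk, ν, hw⟩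
  · intro h k0 U hU hz
    obtain ⟨k, hk, ν, hw⟩ := h U hU hz k0
    exact ⟨_, hw, k, hk, ν, rfl⟩

theorem Good.self_mem_lim (hT : Good T) (hm : 1 ≤ m) (y : Y) : y ∈ (lim T m y).carrier :=
  mem_lim_iff.2 fun U hU hy k0 => hT.recur m hm y U hU hy k0

/-- slices over periodic points -/
theorem slice_finite (hm : 1 ≤ m) (C : CI ((SP T).pw m)) {y : Y} {M : ℕ} (hM : 1 ≤ M)
    (hy : T.a ((M : ℤ), 0) y = y) (hg : y ∉ (gen C).carrier) :
    {x | (x, y) ∈ C.carrier}.Finite ∧ {x | (x, y) ∈ C.carrier} ⊆ Per := by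
  let F : CI (S23.pw (m * M)) :=
    { carrier := {x | (x, y) ∈ C.carrier}
      closed := C.closed.preimage (f := fun x => (x, y)) (by fun_prop)
      inv := by
        rintro ⟨p, q⟩ x hx
        have h := C.inv ((M : ℤ) * p, (q, 0)) _ hx
        rw [pw_a] at h
        change (S23.a ((m : ℤ) * ((M : ℤ) * p), q) x, T.a ((m : ℤ) * ((M : ℤ) * p), 0) y) ∈ _ at h
        have e1 : T.a ((m : ℤ) * ((M : ℤ) * p), 0) y = y := by
          have := iter_fix T hy ((m : ℤ) * p)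
          rw [← this]
          conv_rhs => rw [this]
          rw [this]
          have e : (((m : ℤ) * ((M : ℤ) * p), 0) : ℤ × N) = ((m : ℤ) * p) • ((M : ℤ), 0) := by
            ext
            · simp
              ring
            · simp
          rw [e, this]
        rw [e1] at h
        rw [pw_a]
        change (S23.a (((m * M : ℕ) : ℤ) * p, q) x, y) ∈ C.carrier
        have e2 : ((m * M : ℕ) : ℤ) * p = (m : ℤ) * ((M : ℤ) * p) := by push_cast; ring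
        rw [e2]
        exact h }
  refine finite_pw (Nat.mul_pos hm hM) F fun h => hg ?_
  intro x
  have : x ∈ F.carrier := h ▸ mem_univ x
  exact this

theorem slice_b (C : CI ((SP T).pw m)) (y : Y) (q : ℤ) {x : XX} (hx : (x, y) ∈ C.carrier) :
    (S23.a (0, q) x, y) ∈ C.carrier := by
  have h := C.inv (0, (q, 0)) _ hx
  rw [pw_a] at h
  change (S23.a ((m : ℤ) * 0, q) x, T.a ((m : ℤ) * 0, 0) y) ∈ _ at h
  rw [mul_zero] at h
  have e : (((0 : ℤ), (0 : N)) : ℤ × N) = 0 := rfl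
  rw [e, T.zero] at h
  exact h

theorem tube [CompactSpace Y] [T2Space Y] {K : Set (XX × Y)} (hK : IsClosed K) {y : Y} {O : Set XX} (hO : IsOpen O)
    (h : ∀ x, (x, y) ∈ K → x ∈ O) :
    ∃ P : Set Y, IsOpen P ∧ y ∈ P ∧ ∀ x' y', (x', y') ∈ K → y' ∈ P → x' ∈ O := by
  refine ⟨(Prod.snd '' (K ∩ (Prod.fst ⁻¹' Oᶜ)))ᶜ, ?_, ?_, ?_⟩
  · have h1 : IsClosed (K ∩ (Prod.fst ⁻¹' Oᶜ)) := hK.inter (hO.isClosed_compl.preimage continuous_fst)
    exact (h1.isCompact.image continuous_snd).isClosed.isOpen_compl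
  · rintro ⟨⟨x, y'⟩, ⟨h1, h2⟩, rfl⟩
    exact h2 (h x h1)
  · intro x' y' h1 h2
    by_contra hx
    exact h2 ⟨(x', y'), ⟨h1, hx⟩, rfl⟩

/-- points outside the full fibres -/
theorem Good.per_of_mem [CompactSpace Y] [T2Space Y] (hT : Good T) (hm : 1 ≤ m) (C : CI ((SP T).pw m)) {x : XX} {y : Y}
    (h : (x, y) ∈ C.carrier) (hg : y ∉ (gen C).carrier) : x ∈ Per := by
  obtain ⟨y0, h1, h2, M, hM, h3⟩ := hT.perd m hm (lim T m y) (gen C) fun hle => hg (hle (hT.self_mem_lim hm y))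
  obtain ⟨hF, hP⟩ := slice_finite hm C hM h3 h2
  obtain ⟨O, hO, -, hFO, hvis⟩ := nbhd hF hP fun q f hf => slice_b C y0 q hf
  obtain ⟨P, hP1, hP2, hP3⟩ := tube C.closed hO (y := y0) fun x hx => hFO hx
  refine per_of_visits hF hP hvis fun k0 => ?_
  obtain ⟨k, hk, ν, hν⟩ := mem_lim_iff.1 h1 P hP1 hP2 k0
  refine ⟨m * k, hk.trans (Nat.le_mul_of_pos_left _ hm), fun q => ?_⟩
  refine hP3 _ (T.a (-((m : ℤ) * k), ν) y) ?_ hν
  have h4 := C.inv (-(k : ℤ), (q, ν)) _ h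
  rw [pw_a] at h4
  change (S23.a ((m : ℤ) * -(k : ℤ), q) x, T.a ((m : ℤ) * -(k : ℤ), ν) y) ∈ _ at h4
  rw [mul_neg] at h4
  push_cast
  exact h4

theorem Good.exc_finite [CompactSpace Y] [T2Space Y] (hT : Good T) (hm : 1 ≤ m) (C : CI ((SP T).pw m)) :
    {x | ∃ y, (x, y) ∈ C.carrier ∧ y ∉ (gen C).carrier}.Finite := by
  obtain ⟨V, hV, hDV, hVi⟩ := isolating (T.pw m) (hT.noeth m hm) (gen C)
  set G : Set XX := Prod.fst '' (C.carrier ∩ Prod.snd ⁻¹' Vᶜ) with hG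
  have hGc : IsClosed G :=
    ((C.closed.inter (hV.isClosed_compl.preimage continuous_snd)).isCompact.image continuous_fst).isClosed
  have hGb : ∀ q : ℤ, ∀ x ∈ G, S23.a (0, q) x ∈ G := by
    rintro q _ ⟨⟨x, y⟩, ⟨h1, h2⟩, rfl⟩
    exact ⟨(S23.a (0, q) x, y), ⟨slice_b C y q h1, h2⟩, rfl⟩
  have hGP : G ⊆ Per := by
    rintro _ ⟨⟨x, y⟩, ⟨h1, h2⟩, rfl⟩
    exact hT.per_of_mem hm C h1 fun h => h2 (hDV h)
  have hGf := closed_per_finite hGc hGb hGP
  have hGf' : (⋃ x ∈ G, orb x).Finite := hGf.biUnion fun x hx => hGP hx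
  refine hGf'.subset ?_
  rintro x ⟨y, h1, h2⟩
  have hex : ∃ g, (T.pw m).a g y ∉ V := by
    by_contra hc
    push Not at hc
    exact h2 (hVi y hc)
  obtain ⟨⟨p, ν⟩, hg⟩ := hex
  have h3 := C.inv (p, (0, ν)) _ h1
  have h4 : S23.a ((m : ℤ) * p, 0) x ∈ G := ⟨_, ⟨h3, hg⟩, rfl⟩
  refine mem_iUnion₂.2 ⟨_, h4, ?_⟩
  refine ⟨-((m : ℤ) * p, 0), ?_⟩
  change S23.a (-((m : ℤ) * p, 0)) (S23.a ((m : ℤ) * p, 0) x) = x
  rw [← S23.add, neg_add_cancel, S23.zero]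

/-- sections over periodic points -/
def sec (T : Sys (ℤ × N) Y) (m M : ℕ) {x : XX} (hx : S23.a ((M : ℤ), 0) x = x) (C : CI ((SP T).pw m)) :
    CI (T.pw (m * M)) where
  carrier := {y | (x, y) ∈ C.carrier}
  closed := C.closed.preimage (f := fun y => (x, y)) (by fun_prop)
  inv := by
    rintro ⟨p, ν⟩ y hy
    have h := C.inv ((M : ℤ) * p, (0, ν)) _ hy
    rw [pw_a] at h
    change (S23.a ((m : ℤ) * ((M : ℤ) * p), 0) x, T.a ((m : ℤ) * ((M : ℤ) * p), ν) y) ∈ _ at h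
    have e1 : S23.a ((m : ℤ) * ((M : ℤ) * p), 0) x = x := by
      have := iter_fix S23 hx ((m : ℤ) * p)
      have e : (((m : ℤ) * ((M : ℤ) * p), 0) : ℤ × ℤ) = ((m : ℤ) * p) • ((M : ℤ), 0) := by
        ext
        · simp
          ring
        · simp
      rw [e, this]
    rw [e1] at h
    rw [pw_a]
    have e2 : ((m * M : ℕ) : ℤ) * p = (m : ℤ) * ((M : ℤ) * p) := by push_cast; ring
    change (x, T.a (((m * M : ℕ) : ℤ) * p, ν) y) ∈ C.carrier
    rw [e2]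
    exact h

theorem exists_common {E : Set XX} (hE : E.Finite) (hP : E ⊆ Per) :
    ∃ M : ℕ, 1 ≤ M ∧ ∀ x ∈ E, S23.a ((M : ℤ), 0) x = x := by
  have h : ∀ x : XX, ∃ M : ℕ, 1 ≤ M ∧ (x ∈ Per → S23.a ((M : ℤ), 0) x = x) := by
    intro x
    by_cases hx : x ∈ Per
    · obtain ⟨M, hM, h⟩ := per_period hx (1, 0)
      refine ⟨M, hM, fun _ => ?_⟩
      have e : ((M : ℤ) • ((1, 0) : ℤ × ℤ)) = ((M : ℤ), 0) := by simp
      rwa [e] at h
    · exact ⟨1, le_rfl, fun h => absurd h hx⟩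
  choose f hf1 hf2 using h
  refine ⟨∏ x ∈ hE.toFinset, f x, Nat.succ_le_of_lt (Finset.prod_pos fun x _ => hf1 x), fun x hx => ?_⟩
  obtain ⟨c, hc⟩ := Finset.dvd_prod_of_mem f (hE.mem_toFinset.2 hx)
  rw [hc]
  have := iter_fix S23 (hf2 x (hP hx)) c
  have e : ((((f x * c : ℕ) : ℤ), 0) : ℤ × ℤ) = (c : ℤ) • ((f x : ℤ), 0) := by
    ext
    · simp
      ring
    · simp
  rw [e]
  exact this

theorem Good.noeth_SP [CompactSpace Y] [T2Space Y] (hT : Good T) (hm : 1 ≤ m) : WellFoundedLT (CI ((SP T).pw m)) := by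
  refine ⟨WellFounded.wellFounded_iff_has_min.2 ?_⟩
  intro s hs
  obtain ⟨D, ⟨C0, hC0, rfl⟩, hmin⟩ := (hT.noeth m hm).wf.has_min (gen '' s) (hs.image gen)
  set E0 : Set XX := {x | ∃ y, (x, y) ∈ C0.carrier ∧ y ∉ (gen C0).carrier} with hE0
  have hfin : E0.Finite := hT.exc_finite hm C0
  have hP : E0 ⊆ Per := by
    rintro x ⟨y, h1, h2⟩
    exact hT.per_of_mem hm C0 h1 h2
  obtain ⟨M, hM, hper⟩ := exists_common hfin hP
  have : Finite E0 := hfin
  let Ψ : CI ((SP T).pw m) → (E0 → CI (T.pw (m * M))) := fun C x => sec T m M (hper x.1 x.2) C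
  have := hT.noeth (m * M) (Nat.mul_pos hm hM)
  have hwf : WellFoundedLT (E0 → CI (T.pw (m * M))) := inferInstance
  obtain ⟨_, ⟨Cs, ⟨hCs, hCs0⟩, rfl⟩, hmin2⟩ := hwf.wf.has_min (Ψ '' {C | C ∈ s ∧ C ≤ C0})
    ⟨_, C0, ⟨hC0, le_rfl⟩, rfl⟩
  refine ⟨Cs, hCs, fun C hC hlt => ?_⟩
  have hCC0 : C ≤ C0 := hlt.le.trans hCs0
  have h1 : Ψ C = Ψ Cs := by
    by_contra hne
    refine hmin2 _ ⟨C, ⟨hC, hCC0⟩, rfl⟩ (lt_of_le_of_ne ?_ hne)
    intro x y hy
    exact hlt.le hy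
  have h2 : gen C = gen C0 := by
    by_contra hne
    refine hmin _ ⟨C, hC, rfl⟩ (lt_of_le_of_ne ?_ hne)
    intro y hy x
    exact hCC0 (hy x)
  refine hlt.not_ge ?_
  rintro ⟨x, y⟩ hxy
  by_cases hy : y ∈ (gen C0).carrier
  · rw [← h2] at hy
    exact hy x
  · have hx : x ∈ E0 := ⟨y, hCs0 hxy, hy⟩
    have h3 := congrFun h1 ⟨x, hx⟩
    have h4 : y ∈ (sec T m M (hper x hx) Cs).carrier := hxy
    have h5 : sec T m M (hper x hx) C = sec T m M (hper x hx) Cs := h3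
    rw [← h5] at h4
    exact h4

theorem Good.recur_SP [CompactSpace Y] [T2Space Y] (hT : Good T) (hm : 1 ≤ m) (z : XX × Y) :
    z ∈ (lim (SP T) m z).carrier := by
  obtain ⟨x0, y0⟩ := z
  by_cases hx0 : x0 ∈ Per
  · obtain ⟨M, hM, hper⟩ := exists_common (finite_singleton x0) (singleton_subset_iff.2 hx0)
    have hper := hper x0 rfl
    rw [mem_lim_iff]
    intro U hU hz k0
    obtain ⟨k, hk, ν, hν⟩ := hT.recur (m * M) (Nat.mul_pos hm hM) y0 ((fun y => (x0, y)) ⁻¹' U)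
      (hU.preimage (by fun_prop)) hz k0
    refine ⟨M * k, hk.trans (Nat.le_mul_of_pos_left _ hM), (0, ν), ?_⟩
    rw [SP_a]
    have e1 : S23.a (-((m : ℤ) * ((M * k : ℕ) : ℤ)), 0) x0 = x0 := by
      have := iter_fix S23 hper (-((m : ℤ) * k))
      have e : ((-((m : ℤ) * ((M * k : ℕ) : ℤ)), 0) : ℤ × ℤ) = (-((m : ℤ) * k)) • ((M : ℤ), 0) := by
        ext
        · simp
          ring
        · simp
      rw [e, this]
    rw [e1]
    have e2 : (m : ℤ) * ((M * k : ℕ) : ℤ) = ((m * M : ℕ) : ℤ) * k := by push_cast; ring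
    rw [e2]
    exact hν
  · set C := lim (SP T) m (x0, y0) with hC
    by_cases hg : y0 ∈ (gen C).carrier
    · exact hg x0
    exfalso
    obtain ⟨y1, h1, h2, M, hM, h3⟩ := hT.perd m hm (lim T m y0) (gen C) fun hle => hg (hle (hT.self_mem_lim hm y0))
    obtain ⟨hF, hP⟩ := slice_finite hm C hM h3 h2
    obtain ⟨O, hO, -, hFO, hvis⟩ := nbhd hF hP fun q f hf => slice_b C y1 q hf
    -- the tails
    let A : ℕ → Set (XX × Y) := fun k0 =>
      closure {z | ∃ k : ℕ, k0 ≤ k ∧ ∃ ν : ℤ × N, z = (SP T).a (-((m : ℤ) * k), ν) (x0, y0)}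
    have hAd : ∀ k, A (k + 1) ⊆ A k := fun k => closure_mono (by
      rintro _ ⟨k', hk', ν, rfl⟩
      exact ⟨k', by omega, ν, rfl⟩)
    have hk1 : ∃ k1, ∀ x, (x, y1) ∈ A k1 → x ∈ O := by
      by_contra hc
      push Not at hc
      obtain ⟨w, hw⟩ := IsCompact.nonempty_iInter_of_sequence_nonempty_isCompact_isClosed
        (fun k => A k ∩ ((Prod.fst ⁻¹' Oᶜ) ∩ (Prod.snd ⁻¹' {y1}))) (fun k => inter_subset_inter_left _ (hAd k))
        (fun k => by
          obtain ⟨x, hx1, hx2⟩ := hc k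
          exact ⟨(x, y1), hx1, hx2, rfl⟩)
        (isClosed_closure.inter ((hO.isClosed_compl.preimage continuous_fst).inter
          (isClosed_singleton.preimage continuous_snd))).isCompact
        (fun k => isClosed_closure.inter ((hO.isClosed_compl.preimage continuous_fst).inter
          (isClosed_singleton.preimage continuous_snd)))
      rw [mem_iInter] at hw
      have hw1 : w.1 ∉ O := (hw 0).2.1
      have hw2 : w.2 = y1 := (hw 0).2.2
      apply hw1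
      apply hFO
      change (w.1, y1) ∈ C.carrier
      rw [← hw2]
      change w ∈ (lim (SP T) m (x0, y0)).carrier
      simp only [lim, mem_iInter]
      exact fun k => (hw k).1
    obtain ⟨k1, hk1⟩ := hk1
    obtain ⟨P, hP1, hP2, hP3⟩ := tube (isClosed_closure (s := {z | ∃ k : ℕ, k1 ≤ k ∧ ∃ ν : ℤ × N,
      z = (SP T).a (-((m : ℤ) * k), ν) (x0, y0)})) hO hk1
    apply hx0
    refine per_of_visits hF hP hvis fun k0 => ?_
    obtain ⟨k, hk, ν, hν⟩ := mem_lim_iff.1 h1 P hP1 hP2 (max k0 k1)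
    refine ⟨m * k, ((le_max_left _ _).trans hk).trans (Nat.le_mul_of_pos_left _ hm), fun q => ?_⟩
    refine hP3 _ (T.a (-((m : ℤ) * k), ν) y0) (subset_closure ⟨k, (le_max_right _ _).trans hk, (q, ν), ?_⟩) hν
    rw [SP_a]
    push_cast
    rfl

theorem Good.perd_SP [CompactSpace Y] [T2Space Y] (hT : Good T) (hm : 1 ≤ m) (C D : CI ((SP T).pw m)) (h : ¬ C ≤ D) :
    ∃ z, z ∈ C.carrier ∧ z ∉ D.carrier ∧ ∃ M : ℕ, 1 ≤ M ∧ (SP T).a ((M : ℤ), 0) z = z := by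
  have comb : ∀ (x : XX) (y : Y) (M M' : ℕ), 1 ≤ M → 1 ≤ M' → S23.a ((M : ℤ), 0) x = x → T.a ((M' : ℤ), 0) y = y →
      ∃ M : ℕ, 1 ≤ M ∧ (SP T).a ((M : ℤ), 0) (x, y) = (x, y) := by
    intro x y M M' hM hM' hx hy
    refine ⟨M * M', Nat.mul_pos hM hM', ?_⟩
    have h1 := iter_fix S23 hx M'
    have h2 := iter_fix T hy M
    have e1 : ((((M * M' : ℕ) : ℤ), 0) : ℤ × ℤ) = (M' : ℤ) • ((M : ℤ), 0) := by
      ext
      · simp
        ring
      · simp
    have e2 : ((((M * M' : ℕ) : ℤ), 0) : ℤ × N) = (M : ℤ) • ((M' : ℤ), 0) := by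
      ext
      · simp
      · simp
    change (S23.a (((M * M' : ℕ) : ℤ), 0) x, T.a (((M * M' : ℕ) : ℤ), 0) y) = (x, y)
    rw [e1, h1, e2, h2]
  by_cases hg : gen C ≤ gen D
  · obtain ⟨⟨x, y⟩, hC, hD⟩ := not_subset.1 (show ¬ C.carrier ⊆ D.carrier from h)
    have hyC : y ∉ (gen C).carrier := fun hy => hD (hg hy x)
    have hx := hT.per_of_mem hm C hC hyC
    obtain ⟨M, hM, hper⟩ := exists_common (finite_singleton x) (singleton_subset_iff.2 hx)
    have hper := hper x rfl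
    obtain ⟨y', h1, h2, M', hM', h3⟩ := hT.perd (m * M) (Nat.mul_pos hm hM) (sec T m M hper C) (sec T m M hper D)
      fun hle => hD (hle (show y ∈ (sec T m M hper C).carrier from hC))
    exact ⟨(x, y'), h1, h2, comb x y' M M' hM hM' hper h3⟩
  · obtain ⟨y, h1, h2, M', hM', h3⟩ := hT.perd m hm _ _ hg
    obtain ⟨hF, -⟩ := slice_finite hm D hM' h3 h2
    obtain ⟨x, hx, hxF⟩ := per_infinite.exists_notMem_finset hF.toFinset
    obtain ⟨M, hM, hper⟩ := exists_common (finite_singleton x) (singleton_subset_iff.2 hx)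
    exact ⟨(x, y), h1 x, fun hD => hxF (hF.mem_toFinset.2 hD), comb x y M M' hM hM' (hper x rfl) h3⟩

theorem Good.SP [CompactSpace Y] [T2Space Y] (hT : Good T) : Good (SP T) where
  noeth _ hm := hT.noeth_SP hm
  recur m hm z := mem_lim_iff.1 (hT.recur_SP hm z)
  perd _ hm C D h := hT.perd_SP hm C D h

end

theorem Good.map {N N' Y Y' : Type} [AddCommGroup N] [TopologicalSpace Y] [AddCommGroup N'] [TopologicalSpace Y']
    {T : Sys (ℤ × N) Y} {T' : Sys (ℤ × N') Y'} (hT : Good T) (f : Y → Y') (hf : Continuous f)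
    (hs : Function.Surjective f) (h : N → N') (h0 : h 0 = 0)
    (hfh : ∀ p ν y, f (T.a (p, ν) y) = T'.a (p, h ν) (f y)) : Good T' where
  noeth m hm := noeth_of_surj (T := T.pw m) (S := T'.pw m) f hf hs (fun g => (g.1, h g.2))
    (fun g y => hfh _ _ _) (hT.noeth m hm)
  recur m hm y' U hU hy k0 := by
    obtain ⟨y, rfl⟩ := hs y'
    obtain ⟨k, hk, ν, hν⟩ := hT.recur m hm y (f ⁻¹' U) (hU.preimage hf) hy k0
    refine ⟨k, hk, h ν, ?_⟩
    rw [← hfh]
    exact hν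
  perd m hm C D hCD := by
    let g : CI (T'.pw m) → CI (T.pw m) := fun C =>
      { carrier := f ⁻¹' C.carrier
        closed := C.closed.preimage hf
        inv := by
          rintro ⟨p, ν⟩ y hy
          rw [mem_preimage, pw_a, hfh]
          exact C.inv (p, h ν) _ hy }
    have hn : ¬ g C ≤ g D := by
      intro hle
      apply hCD
      intro y' hy'
      obtain ⟨y, rfl⟩ := hs y'
      exact hle (show y ∈ (g C).carrier from hy')
    obtain ⟨y, h1, h2, M, hM, h3⟩ := hT.perd m hm _ _ hn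
    refine ⟨f y, h1, h2, M, hM, ?_⟩
    rw [← h0, ← hfh, h3]

end Pool.Agent.H48.CBR
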