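import Pool.Agent.H48.CBR.Main
import Pool.Agent.H48.CBR.ShC

/-!
# Products of the symbolic `×2 ×3` system over a common generator as multidimensional shifts
-/

set_option autoImplicit false

namespace Pool.Agent.H48.CBR.Sh

open Filter Topology Set
open Pool.Agent.H48.CBR

/-- the action of `ℤ × ℤ^k` -/
def SOs (k n : ℕ) : Sys (ℤ × (Fin k → ℤ)) (Om k n) where
  a g w := (fun i => S23.a (g.1, g.2 i) (w.1 i), w.2)
  zero w := by
    have h : (((0 : ℤ), (0 : ℤ)) : ℤ × ℤ) = 0 := rfl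
    simp [S23.zero, h]
  add g h w := by
    have e : ∀ i, (((g + h).1, (g + h).2 i) : ℤ × ℤ) = (g.1, g.2 i) + (h.1, h.2 i) := fun i => rfl
    simp only [e, S23.add]
  cont g := (continuous_pi fun i => (S23.cont _).comp ((continuous_apply i).comp continuous_fst)).prodMk
    continuous_snd

theorem good (k n : ℕ) : Good (SOs k n) := by
  induction k with
  | zero =>
    have key : ∀ g (y : Om 0 n), (SOs 0 n).a g y = y := fun g y =>
      Prod.ext (funext fun i => i.elim0) rfl
    refine ⟨fun m _ => ?_, fun m _ y U _ hy k0 => ⟨k0, le_rfl, 0, by rw [key]; exact hy⟩, fun m _ C D h => ?_⟩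
    · have : Finite (CI ((SOs 0 n).pw m)) := by
        have : Finite (Set (Om 0 n)) := inferInstance
        exact Finite.of_injective CI.carrier fun _ _ h => CI.ext h
      infer_instance
    · obtain ⟨y, h1, h2⟩ := not_subset.1 (show ¬ C.carrier ⊆ D.carrier from h)
      exact ⟨y, h1, h2, 1, le_rfl, key _ _⟩
  | succ k ih =>
    refine Good.map (T := SP (SOs k n)) (T' := SOs (k + 1) n) (Good.SP ih)
      (fun z => (Fin.cons z.1 z.2.1, z.2.2)) ?_ ?_ (fun ν => Fin.cons ν.1 ν.2) ?_ ?_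
    · refine Continuous.prodMk ?_ (continuous_snd.comp continuous_snd)
      refine continuous_pi fun i => ?_
      refine Fin.cases ?_ (fun i => ?_) i
      · simpa using continuous_fst
      · have h : Continuous fun a : XX × Om k n => a.2.1 i :=
          (continuous_apply i).comp (continuous_fst.comp continuous_snd)
        simpa using h
    · rintro ⟨w, l⟩
      exact ⟨(w 0, Fin.tail w, l), by simp⟩
    · funext i
      refine Fin.cases ?_ (fun i => ?_) i <;> simp
    · rintro p ⟨q, ν⟩ ⟨x, w, l⟩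
      simp only [SP, SOs, Prod.mk.injEq, and_true]
      funext i
      refine Fin.cases ?_ (fun i => ?_) i <;> simp

theorem noeth_SOs (k n : ℕ) : WellFoundedLT (CI (SOs k n)) := by
  refine noeth_of_surj (T := (SOs k n).pw 1) (S := SOs k n) id continuous_id Function.surjective_id
    (fun g => (((1 : ℕ) : ℤ) * g.1, g.2)) (fun g y => rfl) ((good k n).noeth 1 le_rfl)

variable {d k n : ℕ}

/-- the common coordinate -/
def i0 (hk : k + 1 ≤ d) (_ : Fin k) : Fin d := ⟨0, by omega⟩

/-- the own coordinates -/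
def i1 (hk : k + 1 ≤ d) (i : Fin k) : Fin d := ⟨i + 1, by omega⟩

/-- the configuration of a point -/
noncomputable def Ph (hk : k + 1 ≤ d) (w : Om k n) : Cfg d :=
  fun v => enc k n (fun i => (w.1 i).1 (v (i0 hk i)) (v (i1 hk i)), w.2)

/-- the vector in `ℤ^d` -/
def vec (_hk : k + 1 ≤ d) (g : ℤ × (Fin k → ℤ)) : Fin d → ℤ := fun j =>
  if (j : ℕ) = 0 then g.1 else (if h : (j : ℕ) - 1 < k then g.2 ⟨(j : ℕ) - 1, h⟩ else 0)

theorem vec_i0 (hk : k + 1 ≤ d) (g : ℤ × (Fin k → ℤ)) (i : Fin k) : vec hk g (i0 hk i) = g.1 := by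
  have h : ((i0 hk i : Fin d) : ℕ) = 0 := rfl
  unfold vec
  rw [if_pos h]

theorem vec_i1 (hk : k + 1 ≤ d) (g : ℤ × (Fin k → ℤ)) (i : Fin k) : vec hk g (i1 hk i) = g.2 i := by
  have h1 : ((i1 hk i : Fin d) : ℕ) - 1 = i := by simp [i1]
  have h2 : ¬ ((i1 hk i : Fin d) : ℕ) = 0 := by simp [i1]
  unfold vec
  rw [if_neg h2, dif_pos (by rw [h1]; exact i.2)]
  congr 1

theorem cont_Ph (hk : k + 1 ≤ d) : Continuous (Ph (n := n) hk) := by
  refine continuous_pi fun v => ?_
  have h1 : Continuous fun w : Om k n => ((fun i => (w.1 i).1 (v (i0 hk i)) (v (i1 hk i)), w.2) : Sy k n) := by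
    refine Continuous.prodMk ?_ continuous_snd
    exact continuous_pi fun i => (cont_eval _ _).comp ((continuous_apply i).comp continuous_fst)
  have h2 : Continuous (enc k n) := continuous_of_discreteTopology
  exact h2.comp h1

theorem Ph_inj (hk : k + 1 ≤ d) {w w' : Om k n} (h : Ph hk w = Ph hk w') : w = w' := by
  have h2 : w.2 = w'.2 := by
    have := enc_inj (congrFun h 0)
    exact (Prod.mk.injEq _ _ _ _ ▸ this).2
  have h1 : w.1 = w'.1 := by
    funext i
    apply Subtype.ext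
    funext a b
    have h3 := enc_inj (congrFun h (vec hk (a, fun _ => b)))
    have h4 := congrFun (congrArg Prod.fst h3) i
    simp only [vec_i0, vec_i1] at h4
    exact h4
  exact Prod.ext h1 h2

theorem sh_Ph (hk : k + 1 ≤ d) (u : Fin d → ℤ) (w : Om k n) :
    sh u (Ph hk w) = Ph hk ((SOs k n).a (u ⟨0, by omega⟩, fun i => u (i1 hk i)) w) := rfl

theorem Ph_a (hk : k + 1 ≤ d) (g : ℤ × (Fin k → ℤ)) (w : Om k n) :
    Ph hk ((SOs k n).a g w) = sh (vec hk g) (Ph hk w) := by
  rw [sh_Ph]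
  congr 2
  refine Prod.ext ?_ (funext fun i => (vec_i1 hk g i).symm)
  have h : ((⟨0, by omega⟩ : Fin d) : ℕ) = 0 := rfl
  unfold vec
  simp

/-- the shift of a nonempty closed invariant set -/
noncomputable def toSh (hk : k + 1 ≤ d) (C : CI (SOs k n)) (hC : C.carrier.Nonempty) : Shift d where
  carrier := Ph hk '' C.carrier
  nonempty := hC.image _
  alphabet := by
    refine ⟨Finset.univ.image (enc k n), ?_⟩
    rintro _ ⟨w, -, rfl⟩ v
    exact Finset.mem_image_of_mem _ (Finset.mem_univ _)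
  compact := compactDl_iff.2 (C.closed.isCompact.image (cont_Ph hk))
  invariant := by
    rintro u _ ⟨w, hw, rfl⟩
    exact ⟨_, C.inv _ _ hw, (sh_Ph hk u w).symm⟩

/-! ### The product is of finite type -/

theorem i0_ne_i1 (hk : k + 1 ≤ d) (i : Fin k) : i0 hk i ≠ i1 hk i := by
  intro h
  have := congrArg Fin.val h
  simp [i0, i1] at this

theorem sft (hk : k + 1 ≤ d) (Y : Set (Cfg d)) (hY : ∀ u, ∀ y ∈ Y, sh u y ∈ Y)
    (h : ∀ y ∈ Y, ∃ w : Om k n, Ag 1 y (Ph hk w)) : Y ⊆ range (Ph (n := n) hk) := by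
  intro y hy
  choose w hw using fun u => h (sh u y) (hY u y hy)
  -- the symbols
  obtain ⟨s, hs⟩ : ∃ s : (Fin d → ℤ) → Sy k n, ∀ u, s u = (fun i => ((w u).1 i).1 0 0, (w u).2) := ⟨_, fun _ => rfl⟩
  have hys : ∀ u, y u = enc k n (s u) := by
    intro u
    have := hw u 0 (by simp [nrm])
    rw [hs]
    simpa [sh, Ph] using this
  have hsv : ∀ u v, nrm v ≤ 1 → s (u + v) = (fun i => ((w u).1 i).1 (v (i0 hk i)) (v (i1 hk i)), (w u).2) := by
    intro u v hv
    have := hw u v hv
    apply enc_inj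
    rw [← hys]
    exact this
  have hs2 : ∀ u u', (s u).2 = (s u').2 := by
    intro u u'
    refine const_of (fun u => (s u).2) Finset.univ (fun j _ u => ?_) u u' fun j hj => absurd (Finset.mem_univ j) hj
    rw [hsv u _ (nrm_single_le j), hs]
  have hs1 : ∀ (i : Fin k) (u u' : Fin d → ℤ), u (i0 hk i) = u' (i0 hk i) → u (i1 hk i) = u' (i1 hk i) →
      (s u).1 i = (s u').1 i := by
    intro i u u' h0 h1
    refine const_of (fun u => (s u).1 i) (Finset.univ \ {i0 hk i, i1 hk i}) (fun j hj u => ?_) u u' fun j hj => ?_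
    · rw [hsv u _ (nrm_single_le j), hs]
      simp only [Finset.mem_sdiff, Finset.mem_univ, true_and, Finset.mem_insert, Finset.mem_singleton, not_or] at hj
      simp only
      rw [Pi.single_eq_of_ne (Ne.symm hj.1), Pi.single_eq_of_ne (Ne.symm hj.2)]
    · simp only [Finset.mem_sdiff, Finset.mem_univ, true_and, Finset.mem_insert, Finset.mem_singleton, not_not] at hj
      rcases hj with rfl | rfl
      · exact h0
      · exact h1
  let v2 : Fin k → ℤ → ℤ → (Fin d → ℤ) := fun i a b => Pi.single (i0 hk i) a + Pi.single (i1 hk i) b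
  have hv0 : ∀ i a b, v2 i a b (i0 hk i) = a := by
    intro i a b
    simp only [v2, Pi.add_apply, Pi.single_eq_same]
    rw [Pi.single_eq_of_ne (i0_ne_i1 hk i), add_zero]
  have hv1 : ∀ i a b, v2 i a b (i1 hk i) = b := by
    intro i a b
    simp only [v2, Pi.add_apply, Pi.single_eq_same]
    rw [Pi.single_eq_of_ne (i0_ne_i1 hk i).symm, zero_add]
  have hn : ∀ i, nrm (v2 i 1 1) ≤ 1 := by
    intro i
    rw [nrm_le_iff]
    intro j
    simp only [v2, Pi.add_apply]
    by_cases h0 : j = i0 hk i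
    · subst h0
      rw [Pi.single_eq_same, Pi.single_eq_of_ne (i0_ne_i1 hk i)]
      simp
    · by_cases h1 : j = i1 hk i
      · subst h1
        rw [Pi.single_eq_same, Pi.single_eq_of_ne (i0_ne_i1 hk i).symm]
        simp
      · rw [Pi.single_eq_of_ne h0, Pi.single_eq_of_ne h1]
        simp
  let x : Fin k → XX := fun i => ⟨fun a b => (s (v2 i a b)).1 i, by
    intro a b
    have e00 : (s (v2 i a b)).1 i = ((w (v2 i a b)).1 i).1 0 0 := by rw [hs]
    have e10 : (s (v2 i (a + 1) b)).1 i = ((w (v2 i a b)).1 i).1 1 0 := by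
      rw [hs1 i _ (v2 i a b + Pi.single (i0 hk i) 1) (by simp [hv0])
        (by rw [Pi.add_apply, hv1, hv1, Pi.single_eq_of_ne (i0_ne_i1 hk i).symm, add_zero]),
        hsv _ _ (nrm_single_le _)]
      simp only
      rw [Pi.single_eq_same, Pi.single_eq_of_ne (i0_ne_i1 hk i).symm]
    have e01 : (s (v2 i a (b + 1))).1 i = ((w (v2 i a b)).1 i).1 0 1 := by
      rw [hs1 i _ (v2 i a b + Pi.single (i1 hk i) 1)
        (by rw [Pi.add_apply, hv0, hv0, Pi.single_eq_of_ne (i0_ne_i1 hk i), add_zero]) (by simp [hv1]),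
        hsv _ _ (nrm_single_le _)]
      simp only
      rw [Pi.single_eq_same, Pi.single_eq_of_ne (i0_ne_i1 hk i)]
    have e11 : (s (v2 i (a + 1) (b + 1))).1 i = ((w (v2 i a b)).1 i).1 1 1 := by
      rw [hs1 i _ (v2 i a b + v2 i 1 1) (by simp [hv0]) (by simp [hv1]), hsv _ _ (hn i)]
      simp only
      rw [hv0, hv1]
    have hr := ((w (v2 i a b)).1 i).2 0 0
    simp only [zero_add] at hr
    change ((s (v2 i (a + 1) b)).1 i : ℕ) = (2 * ((s (v2 i a b)).1 i : ℕ) +
      ((s (v2 i (a + 1) (b + 1))).1 i : ℕ) / 3) % 6 ∧ ((s (v2 i a (b + 1))).1 i : ℕ) =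
      (3 * ((s (v2 i a b)).1 i : ℕ) + ((s (v2 i (a + 1) (b + 1))).1 i : ℕ) / 2) % 6
    rw [e00, e10, e01, e11]
    exact hr⟩
  refine ⟨(x, (s 0).2), ?_⟩
  funext u
  rw [hys u]
  unfold Ph
  congr 1
  refine Prod.ext ?_ (hs2 0 u)
  funext i
  exact hs1 i _ _ (hv0 i _ _) (hv1 i _ _)

end Pool.Agent.H48.CBR.Sh
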