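import Pool.Agent.H48.CBR.ShD

/-!
# The lower bound for the Cantor-Bendixson rank
-/

set_option autoImplicit false

namespace Pool.Agent.H48.CBR.Sh

open Filter Topology Set
open Pool.Agent.H48.CBR
open scoped Ordinal

variable {d k n : ℕ}

/-- subshifts of the product are isolated from above -/
theorem below (hk : k + 1 ≤ d) (Y : Shift d) (hY : Y.carrier ⊆ range (Ph (n := n) hk)) :
    ∃ M, ∀ Y' : Shift d, Near M Y.carrier Y'.carrier → Y'.carrier ⊆ Y.carrier := by
  let D : CI (SOs k n) :=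
    { carrier := Ph hk ⁻¹' Y.carrier
      closed := Y.isClosed.preimage (cont_Ph hk)
      inv := fun m w hw => by
        rw [mem_preimage, Ph_a]
        exact Y.invariant _ _ hw }
  obtain ⟨V, hV, hDV, hVi⟩ := isolating (SOs k n) (noeth_SOs k n) D
  have hK : IsCompact (Ph hk '' Vᶜ) := hV.isClosed_compl.isCompact.image (cont_Ph hk)
  have hdis : Disjoint (Ph hk '' Vᶜ) Y.carrier := by
    rw [Set.disjoint_left]
    rintro _ ⟨w, hw, rfl⟩ hwY
    exact hw (hDV hwY)
  obtain ⟨M, hM⟩ := sep hK Y.isClosed hdis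
  refine ⟨max M 1, fun Y' hN => ?_⟩
  have hW : Y'.carrier ⊆ range (Ph (n := n) hk) := by
    refine sft hk Y'.carrier Y'.invariant fun y hy => ?_
    obtain ⟨x, hx, ha⟩ := hN.2 y hy
    obtain ⟨w, rfl⟩ := hY hx
    exact ⟨w, (ha.mono (le_max_right _ _)).symm⟩
  intro y hy
  obtain ⟨w, rfl⟩ := hW hy
  refine hVi w fun m => ?_
  by_contra hmV
  have h1 : Ph hk ((SOs k n).a m w) ∈ Y'.carrier := by
    rw [Ph_a]
    exact Y'.invariant _ _ hy
  obtain ⟨x, hx, ha⟩ := hN.2 _ h1
  exact hM _ ⟨_, hmV, rfl⟩ x hx (ha.mono (le_max_left _ _)).symm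

/-- the derivatives are strictly decreasing as long as they contain subshifts of the product -/
theorem scattered (hk : k + 1 ≤ d) {α : Ordinal.{0}} {Y0 : Shift d} (h0 : Y0 ∈ CB d α)
    (hY0 : Y0.carrier ⊆ range (Ph (n := n) hk)) : CB d (α + 1) ≠ CB d α := by
  intro heq
  let g : Shift d → CI (SOs k n) := fun Y =>
    { carrier := Ph hk ⁻¹' Y.carrier
      closed := Y.isClosed.preimage (cont_Ph hk)
      inv := fun m w hw => by
        rw [mem_preimage, Ph_a]
        exact Y.invariant _ _ hw }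
  obtain ⟨_, ⟨Y, ⟨hYα, hYW⟩, rfl⟩, hmin⟩ := (noeth_SOs k n).wf.has_min
    (g '' {Y | Y ∈ CB d α ∧ Y.carrier ⊆ range (Ph (n := n) hk)}) ⟨_, Y0, ⟨h0, hY0⟩, rfl⟩
  obtain ⟨M, hM⟩ := below hk Y hYW
  rw [← heq, CB_succ, mem_der_iff] at hYα
  obtain ⟨hYα, hYd⟩ := hYα
  obtain ⟨Y', hY', hne, hN⟩ := hYd M
  have hsub := hM Y' hN
  have h1 : ¬ g Y' < g Y := hmin _ ⟨Y', ⟨hY', hsub.trans hYW⟩, rfl⟩
  have h2 : g Y' ≤ g Y := fun w hw => hsub hw
  have h3 : g Y' = g Y := by
    by_contra h
    exact h1 (lt_of_le_of_ne h2 h)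
  apply hne
  apply Shift.ext'
  refine hsub.antisymm fun y hy => ?_
  obtain ⟨w, rfl⟩ := hYW hy
  have h4 : w ∈ (g Y).carrier := hy
  rw [← h3] at h4
  exact h4

/-! ### Boxes -/

/-- a product of orbits of periodic points and of full factors -/
structure Box (k n : ℕ) where
  J : Finset (Fin k)
  S : Fin k → Set XX
  l : Fin n
  full : ∀ i ∈ J, S i = univ
  per : ∀ i, i ∉ J → ∃ p ∈ Per, S i = orb p

namespace Box

/-- the closed invariant set of a box -/
def ci (B : Box k n) : CI (SOs k n) where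
  carrier := {w | (∀ i, w.1 i ∈ B.S i) ∧ w.2 = B.l}
  closed := by
    have hcl : ∀ i, IsClosed (B.S i) := by
      intro i
      by_cases hi : i ∈ B.J
      · rw [B.full i hi]
        exact isClosed_univ
      · obtain ⟨p, hp, he⟩ := B.per i hi
        rw [he]
        exact (show (orb p).Finite from hp).isClosed
    have : {w : Om k n | (∀ i, w.1 i ∈ B.S i) ∧ w.2 = B.l} =
        (⋂ i, (fun w : Om k n => w.1 i) ⁻¹' B.S i) ∩ (fun w : Om k n => w.2) ⁻¹' {B.l} := by
      ext w
      simp
    rw [this]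
    exact (isClosed_iInter fun i => (hcl i).preimage ((continuous_apply i).comp continuous_fst)).inter
      ((isClosed_discrete _).preimage continuous_snd)
  inv := by
    rintro m w ⟨h1, h2⟩
    refine ⟨fun i => ?_, h2⟩
    by_cases hi : i ∈ B.J
    · rw [B.full i hi]
      trivial
    · obtain ⟨p, hp, he⟩ := B.per i hi
      have := h1 i
      rw [he] at this ⊢
      exact orb_inv this _

theorem nonempty (B : Box k n) : B.ci.carrier.Nonempty := by
  have h : ∀ i, (B.S i).Nonempty := by
    intro i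
    by_cases hi : i ∈ B.J
    · rw [B.full i hi]
      obtain ⟨p, -⟩ := per_infinite.nonempty
      exact ⟨p, trivial⟩
    · obtain ⟨p, hp, he⟩ := B.per i hi
      rw [he]
      exact ⟨p, mem_orb p⟩
  choose x hx using h
  exact ⟨(x, B.l), hx, rfl⟩

/-- the shift of a box -/
noncomputable def shift (hk : k + 1 ≤ d) (B : Box k n) : Shift d := toSh hk B.ci B.nonempty

theorem mem_shift (hk : k + 1 ≤ d) (B : Box k n) (w : Om k n) :
    Ph hk w ∈ (B.shift hk).carrier ↔ w ∈ B.ci.carrier := by
  constructor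
  · rintro ⟨w', hw', he⟩
    rwa [← Ph_inj hk he]
  · exact fun h => ⟨w, h, rfl⟩

/-- replace a full factor by a periodic orbit -/
def sub (B : Box k n) (i : Fin k) (p : XX) (hp : p ∈ Per) : Box k n where
  J := B.J.erase i
  S := Function.update B.S i (orb p)
  l := B.l
  full j hj := by
    rw [Function.update_of_ne (Finset.ne_of_mem_erase hj)]
    exact B.full j (Finset.mem_of_mem_erase hj)
  per j hj := by
    by_cases h : j = i
    · subst h
      exact ⟨p, hp, Function.update_self _ _ _⟩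
    · rw [Function.update_of_ne h]
      exact B.per j fun hj' => hj (Finset.mem_erase.2 ⟨h, hj'⟩)

theorem mem_sub {B : Box k n} {i : Fin k} {p : XX} {hp : p ∈ Per} {w : Om k n} :
    w ∈ (B.sub i p hp).ci.carrier ↔ w.1 i ∈ orb p ∧ (∀ j, j ≠ i → w.1 j ∈ B.S j) ∧ w.2 = B.l := by
  constructor
  · rintro ⟨h1, h2⟩
    refine ⟨?_, fun j hj => ?_, h2⟩
    · have := h1 i
      simpa [sub] using this
    · have := h1 j
      simpa [sub, hj] using this
  · rintro ⟨h1, h2, h3⟩
    refine ⟨fun j => ?_, h3⟩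
    by_cases hj : j = i
    · subst hj
      simpa [sub] using h1
    · simpa [sub, hj] using h2 j hj

end Box

theorem choose_p (hk : k + 1 ≤ d) (B : Box k n) {i : Fin k} (hi : i ∈ B.J) (Z : Shift d)
    (hB : ¬ (B.shift hk).carrier ⊆ Z.carrier) (F : Set XX) (hF : F.Finite) :
    ∃ (p : XX) (hp : p ∈ Per), p ∉ F ∧ ¬ ((B.sub i p hp).shift hk).carrier ⊆ Z.carrier ∧
      ¬ (B.shift hk).carrier ⊆ (Z.un ((B.sub i p hp).shift hk)).carrier := by
  obtain ⟨_, ⟨b, hb, rfl⟩, hbZ⟩ := not_subset.1 hB
  let f : XX → Om k n := fun x => (Function.update b.1 i x, b.2)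
  have hf : Continuous f := by
    have h1 : Continuous fun x : XX => Function.update b.1 i x := continuous_const.update i continuous_id
    exact h1.prodMk continuous_const
  set U : Set XX := {x | Ph hk (f x) ∉ Z.carrier} with hU
  have hUo : IsOpen U := Z.isClosed.isOpen_compl.preimage ((cont_Ph hk).comp hf)
  have hUn : U.Nonempty := ⟨b.1 i, by
    change Ph hk (Function.update b.1 i (b.1 i), b.2) ∉ Z.carrier
    rwa [Function.update_eq_self]⟩
  obtain ⟨p, hp, hpF⟩ := (per_infinite.sdiff (miss_finite hUo hUn)).exists_notMem_finset hF.toFinset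
  obtain ⟨hp, hpm⟩ := hp
  simp only [mem_ofPred_eq, not_forall, not_not] at hpm
  obtain ⟨m, hm⟩ := hpm
  refine ⟨p, hp, fun h => hpF (hF.mem_toFinset.2 h), ?_, ?_⟩
  · refine not_subset.2 ⟨Ph hk (f (S23.a m p)), ?_, hm⟩
    rw [Box.mem_shift, Box.mem_sub]
    refine ⟨?_, fun j hj => ?_, hb.2⟩
    · simp only [f, Function.update_self]
      exact ⟨m, rfl⟩
    · simp only [f, Function.update_of_ne hj]
      exact hb.1 j
  · obtain ⟨z, hz, hzp⟩ := open_infinite hUo hUn (F := orb p) hp
    refine not_subset.2 ⟨Ph hk (f z), ?_, ?_⟩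
    · rw [Box.mem_shift]
      refine ⟨fun j => ?_, hb.2⟩
      by_cases hj : j = i
      · subst hj
        rw [B.full _ hi]
        trivial
      · simp only [f, Function.update_of_ne hj]
        exact hb.1 j
    · rintro (h | h)
      · exact hz h
      · rw [Box.mem_shift, Box.mem_sub] at h
        apply hzp
        simpa [f] using h.1

theorem add_box (hk : k + 1 ≤ d) (j : ℕ) : ∀ (B : Box k n), B.J.card = j → ∀ (Y : Shift d) (α : Ordinal.{0}),
    Y ∈ CB d α → ¬ (B.shift hk).carrier ⊆ Y.carrier → Y.un (B.shift hk) ∈ CB d (α + ex j) := by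
  induction j with
  | zero =>
    intro B hB Y α hY hBY
    have hJ : B.J = ∅ := Finset.card_eq_zero.1 hB
    simp only [ex, add_zero]
    have hfin : (B.shift hk).carrier.Finite := by
      have h1 : (Set.pi univ B.S).Finite := Set.Finite.pi fun i => by
        obtain ⟨p, hp, he⟩ := B.per i (by rw [hJ]; exact Finset.notMem_empty i)
        rw [he]
        exact hp
      have h2 : (Set.pi univ B.S ×ˢ {B.l} : Set (Om k n)).Finite := h1.prod (finite_singleton _)
      refine (h2.image (Ph hk)).subset ?_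
      rintro _ ⟨w, hw, rfl⟩
      exact ⟨w, ⟨fun i _ => hw.1 i, hw.2⟩, rfl⟩
    obtain ⟨z0, hz0, hz0'⟩ := not_subset.1 hBY
    let B' : Shift d :=
      { carrier := (B.shift hk).carrier \ Y.carrier
        nonempty := ⟨z0, hz0, hz0'⟩
        alphabet := by
          obtain ⟨A, hA⟩ := (B.shift hk).alphabet
          exact ⟨A, fun x hx v => hA x hx.1 v⟩
        compact := compactDl_iff.2 (hfin.subset sdiff_subset).isCompact
        invariant := by
          rintro u x ⟨h1, h2⟩
          refine ⟨(B.shift hk).invariant u x h1, fun h3 => h2 ?_⟩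
          have h4 := Y.invariant (-u) _ h3
          have h5 : sh (-u) (sh u x) = x := by
            funext v
            simp [sh]
          rwa [h5] at h4 }
    have he : Y.un (B.shift hk) = Y.un B' := by
      apply Shift.ext'
      change Y.carrier ∪ (B.shift hk).carrier = Y.carrier ∪ ((B.shift hk).carrier \ Y.carrier)
      rw [union_sdiff_self]
    rw [he]
    refine un_disjoint Y ?_ hY
    rw [Set.disjoint_left]
    exact fun z hz => hz.2
  | succ j ih =>
    intro B hB Y α hY hBY
    obtain ⟨i, hi⟩ : B.J.Nonempty := by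
      rw [← Finset.card_pos, hB]
      omega
    have hcard : ∀ p hp, (B.sub i p hp).J.card = j := by
      intro p hp
      change (B.J.erase i).card = j
      rw [Finset.card_erase_of_mem hi, hB]
      omega
    have hsubB : ∀ p hp, ((B.sub i p hp).shift hk).carrier ⊆ (B.shift hk).carrier := by
      rintro p hp _ ⟨w, hw, rfl⟩
      rw [Box.mem_shift]
      rw [Box.mem_sub] at hw
      refine ⟨fun j' => ?_, hw.2.2⟩
      by_cases hj : j' = i
      · subst hj
        rw [B.full _ hi]
        trivial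
      · exact hw.2.1 j' hj
    have hN : ∀ N : ℕ, ∃ Z : Shift d, Y.carrier ⊆ Z.carrier ∧ Z.carrier ⊆ Y.carrier ∪ (B.shift hk).carrier ∧
        ¬ (B.shift hk).carrier ⊆ Z.carrier ∧ Z ∈ CB d (α + ex j * N) := by
      intro N
      induction N with
      | zero => exact ⟨Y, subset_rfl, subset_union_left, hBY, by simpa using hY⟩
      | succ N ihN =>
        obtain ⟨Z, h1, h2, h3, h4⟩ := ihN
        obtain ⟨p, hp, -, h5, h6⟩ := choose_p hk B hi Z h3 ∅ finite_empty
        refine ⟨Z.un ((B.sub i p hp).shift hk), h1.trans subset_union_left,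
          union_subset h2 ((hsubB p hp).trans subset_union_right), h6, ?_⟩
        have := ih _ (hcard p hp) Z _ h4 h5
        rwa [add_assoc, ← mul_add_one, ← Nat.cast_succ] at this
    refine mem_CB_of_lt fun β hβ m => ?_
    obtain ⟨N, hN'⟩ := exists_N j hβ
    obtain ⟨Z, h1, h2, h3, h4⟩ := hN N
    obtain ⟨p, hp, hpF, h5, h6⟩ := choose_p hk B hi Z h3 _ (coarse_finite m)
    refine ⟨Z.un ((B.sub i p hp).shift hk), ?_, ?_, ?_, ?_⟩
    · have := ih _ (hcard p hp) Z _ h4 h5
      exact CB_anti d (hN'.trans (le_self_add)) this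
    · intro he
      apply h6
      rw [he]
      exact subset_union_right
    · rintro x (hx | ⟨b, hb, rfl⟩)
      · exact ⟨x, Or.inl (h1 hx), Ag.refl _ _⟩
      · simp only [mem_ofPred_eq, not_exists, not_forall, not_not] at hpF
        obtain ⟨u, hu⟩ := hpF (b.1 i)
        refine ⟨Ph hk (Function.update b.1 i (S23.a u p), b.2), Or.inr ?_, ?_⟩
        · rw [Box.mem_shift, Box.mem_sub]
          refine ⟨?_, fun j' hj' => ?_, hb.2⟩
          · simp only [Function.update_self]
            exact ⟨u, rfl⟩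
          · simp only [Function.update_of_ne hj']
            exact hb.1 j'
        · intro v hv
          unfold Ph
          congr 2
          funext i'
          by_cases hi' : i' = i
          · subst hi'
            simp only [Function.update_self]
            rw [nrm_le_iff] at hv
            exact (hu _ _ (hv _) (hv _)).symm
          · simp only [Function.update_of_ne hi']
    · rintro y (hy | hy)
      · exact ⟨y, h2 hy, Ag.refl _ _⟩
      · exact ⟨y, Or.inr (hsubB p hp hy), Ag.refl _ _⟩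

/-- the full box with label `l` -/
def fullBox (k n : ℕ) (l : Fin n) : Box k n where
  J := Finset.univ
  S := fun _ => univ
  l := l
  full _ _ := rfl
  per i hi := absurd (Finset.mem_univ i) hi

theorem mem_fullBox {l : Fin n} {w : Om k n} : w ∈ (fullBox k n l).ci.carrier ↔ w.2 = l :=
  ⟨fun h => h.2, fun h => ⟨fun _ => trivial, h⟩⟩

theorem exists_high (j N : ℕ) (hk : j + 1 + 1 ≤ d) (t : ℕ) (ht : t ≤ N) : ∃ Z : Shift d, Z ∈ CB d (ω ^ j * t) ∧
    Z.carrier ⊆ Ph hk '' {w : Om (j + 1) (N + 1) | (w.2 : ℕ) ≤ t} := by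
  induction t with
  | zero =>
    refine ⟨(fullBox (j + 1) (N + 1) 0).shift hk, by rw [Nat.cast_zero, mul_zero, CB_zero]; trivial, ?_⟩
    rintro _ ⟨w, hw, rfl⟩
    refine ⟨w, ?_, rfl⟩
    rw [mem_fullBox] at hw
    simp [hw]
  | succ t ih =>
    obtain ⟨Z, hZ, hZs⟩ := ih (by omega)
    set B := fullBox (j + 1) (N + 1) ⟨t + 1, by omega⟩ with hB
    have hBZ : ¬ (B.shift hk).carrier ⊆ Z.carrier := by
      intro h
      obtain ⟨w, hw⟩ := B.nonempty
      have h1 := hZs (h ((B.mem_shift hk w).2 hw))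
      obtain ⟨w', hw', he⟩ := h1
      rw [Ph_inj hk he] at hw'
      rw [hB, mem_fullBox] at hw
      simp only [mem_ofPred_eq, hw] at hw'
      omega
    refine ⟨Z.un (B.shift hk), ?_, ?_⟩
    · have := add_box hk (j + 1) B (by simp [hB, fullBox]) Z _ hZ hBZ
      simp only [ex] at this
      rwa [← mul_add_one, ← Nat.cast_succ] at this
    · rintro x (hx | ⟨w, hw, rfl⟩)
      · obtain ⟨w, hw, rfl⟩ := hZs hx
        exact ⟨w, Nat.le_succ_of_le hw, rfl⟩
      · refine ⟨w, ?_, rfl⟩
        rw [hB, mem_fullBox] at hw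
        simp [hw]

theorem main (d : ℕ) (hd : 2 ≤ d) : ω ^ (d - 1) ≤ rank d := by
  obtain ⟨j, hj⟩ : ∃ j, d - 1 = j + 1 := ⟨d - 2, by omega⟩
  rw [hj]
  have hk : j + 1 + 1 ≤ d := by omega
  refine le_rank fun α hα => ?_
  rw [pow_succ, Ordinal.lt_mul_iff_of_isSuccLimit Ordinal.isSuccLimit_omega0] at hα
  obtain ⟨c, hc, hα⟩ := hα
  obtain ⟨N, rfl⟩ := Ordinal.lt_omega0.1 hc
  obtain ⟨Z, hZ, hZs⟩ := exists_high j N hk N le_rfl
  refine scattered (n := N + 1) hk (CB_anti d hα.le hZ) (hZs.trans (image_subset_range _ _))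

end Pool.Agent.H48.CBR.Sh
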