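import Pool.Agent.H48.CBR.Noeth
import Pool.Graph.R_seed8.R477.XQ.Furst

/-!
# The symbolic `×2 ×3` system
-/

set_option autoImplicit false

namespace Pool.Agent.H48.CBR

open Filter Topology Set
open Pool.Agent.H847R3.XpXq

/-- the local rule of the symbolic `×2 ×3` system (base 6 digits along the diagonals) -/
def Rule (c : ℤ → ℤ → Fin 6) : Prop := ∀ i j,
  (c (i + 1) j : ℕ) = (2 * (c i j : ℕ) + (c (i + 1) (j + 1) : ℕ) / 3) % 6 ∧
  (c i (j + 1) : ℕ) = (3 * (c i j : ℕ) + (c (i + 1) (j + 1) : ℕ) / 2) % 6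

/-- the symbolic `×2 ×3` system -/
abbrev XX : Type := {c : ℤ → ℤ → Fin 6 // Rule c}

theorem isClosed_rule : IsClosed {c : ℤ → ℤ → Fin 6 | Rule c} := by
  have : {c : ℤ → ℤ → Fin 6 | Rule c} = ⋂ i, ⋂ j, {c | (c (i + 1) j : ℕ) = (2 * (c i j : ℕ) +
      (c (i + 1) (j + 1) : ℕ) / 3) % 6 ∧ (c i (j + 1) : ℕ) = (3 * (c i j : ℕ) + (c (i + 1) (j + 1) : ℕ) / 2) % 6} := by
    ext c
    simp [Rule]
  rw [this]
  refine isClosed_iInter fun i => isClosed_iInter fun j => ?_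
  let f : (ℤ → ℤ → Fin 6) → Fin 6 × Fin 6 × Fin 6 × Fin 6 :=
    fun c => (c i j, c (i + 1) j, c i (j + 1), c (i + 1) (j + 1))
  have hf : Continuous f := by
    have h : ∀ a b : ℤ, Continuous fun c : ℤ → ℤ → Fin 6 => c a b := fun a b =>
      (continuous_apply b).comp (continuous_apply a)
    exact (h _ _).prodMk ((h _ _).prodMk ((h _ _).prodMk (h _ _)))
  exact (isClosed_discrete {z : Fin 6 × Fin 6 × Fin 6 × Fin 6 | (z.2.1 : ℕ) = (2 * (z.1 : ℕ) +
      (z.2.2.2 : ℕ) / 3) % 6 ∧ (z.2.2.1 : ℕ) = (3 * (z.1 : ℕ) + (z.2.2.2 : ℕ) / 2) % 6}).preimage hf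

instance : CompactSpace XX := isCompact_iff_compactSpace.1 isClosed_rule.isCompact

theorem cont_eval (i j : ℤ) : Continuous fun c : XX => c.1 i j := by
  have h : Continuous fun c : ℤ → ℤ → Fin 6 => c i j := (continuous_apply j).comp (continuous_apply i)
  exact h.comp continuous_subtype_val

/-- the action of `ℤ²` by translations -/
def S23 : Sys (ℤ × ℤ) XX where
  a m c := ⟨fun i j => c.1 (m.1 + i) (m.2 + j), fun i j => by
    have := c.2 (m.1 + i) (m.2 + j)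
    simpa only [add_assoc] using this⟩
  zero c := by
    apply Subtype.ext
    funext i j
    simp
  add m n c := by
    apply Subtype.ext
    funext i j
    have h1 : m.1 + n.1 + i = n.1 + (m.1 + i) := by ring
    have h2 : m.2 + n.2 + j = n.2 + (m.2 + j) := by ring
    simp only [Prod.fst_add, Prod.snd_add]
    rw [h1, h2]
  cont m := by
    refine Continuous.subtype_mk ?_ _
    refine continuous_pi fun i => continuous_pi fun j => cont_eval _ _

theorem S23_apply (m : ℤ × ℤ) (c : XX) (i j : ℤ) : (S23.a m c).1 i j = c.1 (m.1 + i) (m.2 + j) := rfl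

/-- the number with the digits on the diagonal from `(i, j)` on -/
noncomputable def EE (c : ℤ → ℤ → Fin 6) (i j : ℤ) : ℝ := ∑' k : ℕ, ((c (i + k) (j + k) : ℕ) : ℝ) / 6 ^ (k + 1)

theorem dig_le (a : Fin 6) : ((a : ℕ) : ℝ) ≤ 5 := by
  have := a.2
  exact_mod_cast (by omega : (a : ℕ) ≤ 5)

theorem summ_geo : Summable fun k : ℕ => (5 : ℝ) / 6 ^ (k + 1) := by
  have : (fun k : ℕ => (5 : ℝ) / 6 ^ (k + 1)) = fun k : ℕ => (5 / 6 : ℝ) * (1 / 6) ^ k := by
    funext k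
    rw [pow_succ, one_div, inv_pow]
    field_simp
  rw [this]
  exact (summable_geometric_of_lt_one (by norm_num) (by norm_num)).mul_left _

theorem tsum_geo : ∑' k : ℕ, (5 : ℝ) / 6 ^ (k + 1) = 1 := by
  have : (fun k : ℕ => (5 : ℝ) / 6 ^ (k + 1)) = fun k : ℕ => (5 / 6 : ℝ) * (1 / 6) ^ k := by
    funext k
    rw [pow_succ, one_div, inv_pow]
    field_simp
  rw [this, tsum_mul_left, tsum_geometric_of_lt_one (by norm_num) (by norm_num)]
  norm_num

theorem summ_EE (c : ℤ → ℤ → Fin 6) (i j : ℤ) :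
    Summable fun k : ℕ => ((c (i + k) (j + k) : ℕ) : ℝ) / 6 ^ (k + 1) :=
  summ_geo.of_nonneg_of_le (fun k => by positivity) fun k => by
    have := dig_le (c (i + k) (j + k))
    gcongr

theorem EE_nonneg (c : ℤ → ℤ → Fin 6) (i j : ℤ) : 0 ≤ EE c i j := tsum_nonneg fun k => by positivity

theorem EE_le_one (c : ℤ → ℤ → Fin 6) (i j : ℤ) : EE c i j ≤ 1 := by
  rw [← tsum_geo]
  refine (summ_EE c i j).tsum_le_tsum (fun k => ?_) summ_geo
  have := dig_le (c (i + k) (j + k))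
  gcongr

theorem EE_step (c : ℤ → ℤ → Fin 6) (i j : ℤ) : 6 * EE c i j = (c i j : ℕ) + EE c (i + 1) (j + 1) := by
  unfold EE
  rw [(summ_EE c i j).tsum_eq_zero_add, mul_add, ← tsum_mul_left]
  congr 1
  · simp
    ring
  · congr 1
    funext k
    have h1 : i + ((k + 1 : ℕ) : ℤ) = i + 1 + k := by push_cast; ring
    have h2 : j + ((k + 1 : ℕ) : ℤ) = j + 1 + k := by push_cast; ring
    rw [h1, h2, pow_succ (6 : ℝ) (k + 1)]
    field_simp

theorem zero_of_bdd {f : ℕ → ℝ} (hf : ∀ n, 6 * f n = f (n + 1)) (hb : ∀ n, |f n| ≤ 10) : f 0 = 0 := by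
  have h : ∀ n, f n = 6 ^ n * f 0 := by
    intro n
    induction n with
    | zero => simp
    | succ n ih => rw [← hf, ih, pow_succ]; ring
  by_contra hne
  have hpos : 0 < |f 0| := abs_pos.2 hne
  obtain ⟨n, hn⟩ := pow_unbounded_of_one_lt (10 / |f 0|) (show (1 : ℝ) < 6 by norm_num)
  have := hb n
  rw [h n, abs_mul, abs_of_pos (by positivity : (0 : ℝ) < 6 ^ n)] at this
  rw [div_lt_iff₀ hpos] at hn
  linarith

theorem EE_two {c : ℤ → ℤ → Fin 6} (hc : Rule c) (i j : ℤ) :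
    EE c (i + 1) j = 2 * EE c i j - (((c i j : ℕ) / 3 : ℕ) : ℝ) := by
  have key := zero_of_bdd (f := fun n : ℕ => EE c (i + n + 1) (j + n) - 2 * EE c (i + n) (j + n) +
    (((c (i + n) (j + n) : ℕ) / 3 : ℕ) : ℝ)) ?_ ?_
  · simp only [Nat.cast_zero, add_zero] at key
    linarith
  · intro n
    have h1 := EE_step c (i + n + 1) (j + n)
    have h2 := EE_step c (i + n) (j + n)
    have h3 := (hc (i + n) (j + n)).1
    have h4 : ((c (i + n + 1) (j + n) : ℕ) : ℝ) = 2 * ((c (i + n) (j + n) : ℕ) : ℝ) +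
        (((c (i + n + 1) (j + n + 1) : ℕ) / 3 : ℕ) : ℝ) - 6 * (((c (i + n) (j + n) : ℕ) / 3 : ℕ) : ℝ) := by
      have h5 : (c (i + n + 1) (j + n) : ℕ) + 6 * ((c (i + n) (j + n) : ℕ) / 3) = 2 * (c (i + n) (j + n) : ℕ) +
          (c (i + n + 1) (j + n + 1) : ℕ) / 3 := by
        have ha := (c (i + n) (j + n)).2
        have hb := (c (i + n + 1) (j + n + 1)).2
        omega
      have h6 : (((c (i + n + 1) (j + n) : ℕ) + 6 * ((c (i + n) (j + n) : ℕ) / 3) : ℕ) : ℝ) =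
        ((2 * (c (i + n) (j + n) : ℕ) + (c (i + n + 1) (j + n + 1) : ℕ) / 3 : ℕ) : ℝ) := by rw [h5]
      push_cast at h6 ⊢
      linarith
    have e2 : i + ((n + 1 : ℕ) : ℤ) = i + n + 1 := by push_cast; ring
    have e3 : j + ((n + 1 : ℕ) : ℤ) = j + n + 1 := by push_cast; ring
    simp only [e2, e3]
    linarith
  · intro n
    have h1 := EE_nonneg c (i + n + 1) (j + n)
    have h2 := EE_le_one c (i + n + 1) (j + n)
    have h3 := EE_nonneg c (i + n) (j + n)
    have h4 := EE_le_one c (i + n) (j + n)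
    have h5 : (((c (i + n) (j + n) : ℕ) / 3 : ℕ) : ℝ) ≤ 1 := by
      have ha := (c (i + n) (j + n)).2
      exact_mod_cast (by omega : (c (i + n) (j + n) : ℕ) / 3 ≤ 1)
    have h6 : (0 : ℝ) ≤ (((c (i + n) (j + n) : ℕ) / 3 : ℕ) : ℝ) := by positivity
    rw [abs_le]
    constructor <;> linarith

theorem EE_three {c : ℤ → ℤ → Fin 6} (hc : Rule c) (i j : ℤ) :
    EE c i (j + 1) = 3 * EE c i j - (((c i j : ℕ) / 2 : ℕ) : ℝ) := by
  have key := zero_of_bdd (f := fun n : ℕ => EE c (i + n) (j + n + 1) - 3 * EE c (i + n) (j + n) +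
    (((c (i + n) (j + n) : ℕ) / 2 : ℕ) : ℝ)) ?_ ?_
  · simp only [Nat.cast_zero, add_zero] at key
    linarith
  · intro n
    have h1 := EE_step c (i + n) (j + n + 1)
    have h2 := EE_step c (i + n) (j + n)
    have h3 := (hc (i + n) (j + n)).2
    have h4 : ((c (i + n) (j + n + 1) : ℕ) : ℝ) = 3 * ((c (i + n) (j + n) : ℕ) : ℝ) +
        (((c (i + n + 1) (j + n + 1) : ℕ) / 2 : ℕ) : ℝ) - 6 * (((c (i + n) (j + n) : ℕ) / 2 : ℕ) : ℝ) := by
      have h5 : (c (i + n) (j + n + 1) : ℕ) + 6 * ((c (i + n) (j + n) : ℕ) / 2) = 3 * (c (i + n) (j + n) : ℕ) +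
          (c (i + n + 1) (j + n + 1) : ℕ) / 2 := by
        have ha := (c (i + n) (j + n)).2
        have hb := (c (i + n + 1) (j + n + 1)).2
        omega
      have h6 : (((c (i + n) (j + n + 1) : ℕ) + 6 * ((c (i + n) (j + n) : ℕ) / 2) : ℕ) : ℝ) =
        ((3 * (c (i + n) (j + n) : ℕ) + (c (i + n + 1) (j + n + 1) : ℕ) / 2 : ℕ) : ℝ) := by rw [h5]
      push_cast at h6 ⊢
      linarith
    have e2 : i + ((n + 1 : ℕ) : ℤ) = i + n + 1 := by push_cast; ring
    have e3 : j + ((n + 1 : ℕ) : ℤ) = j + n + 1 := by push_cast; ring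
    simp only [e2, e3]
    linarith
  · intro n
    have h1 := EE_nonneg c (i + n) (j + n + 1)
    have h2 := EE_le_one c (i + n) (j + n + 1)
    have h3 := EE_nonneg c (i + n) (j + n)
    have h4 := EE_le_one c (i + n) (j + n)
    have h5 : (((c (i + n) (j + n) : ℕ) / 2 : ℕ) : ℝ) ≤ 2 := by
      have ha := (c (i + n) (j + n)).2
      exact_mod_cast (by omega : (c (i + n) (j + n) : ℕ) / 2 ≤ 2)
    have h6 : (0 : ℝ) ≤ (((c (i + n) (j + n) : ℕ) / 2 : ℕ) : ℝ) := by positivity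
    rw [abs_le]
    constructor <;> linarith

end Pool.Agent.H48.CBR
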