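import Pool.Agent.H48.CBR.X23

/-!
# Closed invariant sets of the symbolic `×2 ×3` system
-/

set_option autoImplicit false

namespace Pool.Agent.H48.CBR

open Filter Topology Set
open Pool.Agent.H847R3.XpXq

theorem irr23 : Irrational (Real.log (2 : ℕ) / Real.log (3 : ℕ)) := by
  rintro ⟨q, hq⟩
  have h3 : 0 < Real.log (3 : ℕ) := Real.log_pos (by norm_num)
  have h2 : 0 < Real.log (2 : ℕ) := Real.log_pos (by norm_num)
  have hq0 : (0 : ℝ) < q := by rw [hq]; positivity
  have hq0' : 0 < q := by exact_mod_cast hq0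
  have hnum : 0 < q.num := Rat.num_pos.2 hq0'
  obtain ⟨a, ha⟩ : ∃ a : ℕ, q.num = a := ⟨q.num.toNat, (Int.toNat_of_nonneg hnum.le).symm⟩
  have hden : (0 : ℝ) < q.den := by exact_mod_cast q.den_pos
  have h4 : (q.den : ℝ) * Real.log (2 : ℕ) = a * Real.log (3 : ℕ) := by
    have h5 : (q : ℝ) = (a : ℝ) / q.den := by
      rw [Rat.cast_def, ha]
      simp
    rw [h5] at hq
    field_simp at hq
    linarith
  rw [← Real.log_pow, ← Real.log_pow] at h4
  have h6 : ((2 : ℕ) : ℝ) ^ q.den = ((3 : ℕ) : ℝ) ^ a :=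
    Real.log_injOn_pos (mem_Ioi.2 (by positivity)) (mem_Ioi.2 (by positivity)) h4
  have h7 : 2 ^ q.den = 3 ^ a := by exact_mod_cast h6
  have h8 : 2 ∣ 3 ^ a := by rw [← h7]; exact dvd_pow_self 2 q.den_pos.ne'
  have h9 : 2 ∣ 3 := Nat.Prime.dvd_of_dvd_pow Nat.prime_two h8
  omega

/-- the point of the circle -/
noncomputable def val (c : XX) : TT := ((EE c.1 0 0 : ℝ) : TT)

theorem cont_EE (i j : ℤ) : Continuous fun c : XX => EE c.1 i j := by
  refine continuous_tsum (fun k => ?_) summ_geo fun k c => ?_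
  · have h : Continuous fun a : Fin 6 => ((a : ℕ) : ℝ) / 6 ^ (k + 1) := continuous_of_discreteTopology
    exact h.comp (cont_eval _ _)
  · rw [Real.norm_of_nonneg (by positivity)]
    have := dig_le (c.1 (i + k) (j + k))
    gcongr

theorem cont_val : Continuous val := (AddCircle.continuous_mk' 1).comp (cont_EE 0 0)

theorem EE_a (m : ℤ × ℤ) (c : XX) (i j : ℤ) : EE (S23.a m c).1 i j = EE c.1 (m.1 + i) (m.2 + j) := by
  unfold EE
  congr 1
  funext k
  rw [S23_apply, add_assoc, add_assoc]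

theorem val_a (m : ℤ × ℤ) (c : XX) : val (S23.a m c) = ((EE c.1 m.1 m.2 : ℝ) : TT) := by
  unfold val
  rw [EE_a, add_zero, add_zero]

theorem coe_sub_nat (x : ℝ) (n : ℕ) : ((x - n : ℝ) : TT) = x := by
  rw [AddCircle.coe_sub]
  have : ((n : ℝ) : TT) = 0 := by
    rw [AddCircle.coe_eq_zero_iff]
    exact ⟨n, by simp⟩
  rw [this, sub_zero]

theorem two_coe (c : XX) (i j : ℤ) : 2 • ((EE c.1 i j : ℝ) : TT) = ((EE c.1 (i + 1) j : ℝ) : TT) := by
  rw [EE_two c.2, coe_sub_nat, ← AddCircle.coe_nsmul, nsmul_eq_mul]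
  norm_num

theorem three_coe (c : XX) (i j : ℤ) : 3 • ((EE c.1 i j : ℝ) : TT) = ((EE c.1 i (j + 1) : ℝ) : TT) := by
  rw [EE_three c.2, coe_sub_nat, ← AddCircle.coe_nsmul, nsmul_eq_mul]
  norm_num

theorem six_coe (c : XX) (i j : ℤ) : 6 • ((EE c.1 i j : ℝ) : TT) = ((EE c.1 (i + 1) (j + 1) : ℝ) : TT) := by
  rw [← three_coe, ← two_coe, smul_smul]
  norm_num

theorem coe_eq_cases {x y : ℝ} (hx0 : 0 ≤ x) (hx1 : x ≤ 1) (hy0 : 0 ≤ y) (hy1 : y ≤ 1)
    (h : (x : TT) = (y : TT)) : x = y ∨ (x = 0 ∧ y = 1) ∨ (x = 1 ∧ y = 0) := by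
  rw [← sub_eq_zero, ← AddCircle.coe_sub, AddCircle.coe_eq_zero_iff] at h
  obtain ⟨n, hn⟩ := h
  simp only [zsmul_eq_mul, mul_one] at hn
  have h1 : (-2 : ℝ) < n := by linarith
  have h2 : (n : ℝ) < 2 := by linarith
  have h1' : -2 < n := by exact_mod_cast h1
  have h2' : n < 2 := by exact_mod_cast h2
  interval_cases n
  · right; left
    norm_num at hn
    constructor <;> linarith
  · left
    norm_num at hn
    linarith
  · right; right
    norm_num at hn
    constructor <;> linarith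

theorem dig_of_zero {c : ℤ → ℤ → Fin 6} {i j : ℤ} (h : EE c i j = 0) : (c i j : ℕ) = 0 ∧ EE c (i + 1) (j + 1) = 0 := by
  have h1 := EE_step c i j
  have h2 := EE_nonneg c (i + 1) (j + 1)
  have h3 : (0 : ℝ) ≤ ((c i j : ℕ) : ℝ) := by positivity
  rw [h] at h1
  have h4 : ((c i j : ℕ) : ℝ) = 0 := by linarith
  exact ⟨by exact_mod_cast h4, by linarith⟩

theorem dig_of_one {c : ℤ → ℤ → Fin 6} {i j : ℤ} (h : EE c i j = 1) : (c i j : ℕ) = 5 ∧ EE c (i + 1) (j + 1) = 1 := by
  have h1 := EE_step c i j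
  have h2 := EE_le_one c (i + 1) (j + 1)
  have h3 := dig_le (c i j)
  rw [h] at h1
  have h4 : ((c i j : ℕ) : ℝ) = 5 := by linarith
  exact ⟨by exact_mod_cast h4, by linarith⟩

/-- the key lemma in the finite case -/
theorem eq_of_val_eq {C : CI S23} (hfin : (val '' C.carrier).Finite) {c c' : XX} (hc : c ∈ C.carrier)
    (hc' : c' ∈ C.carrier) (h : val c = val c') (h0 : c.1 0 0 = c'.1 0 0) : c = c' := by
  -- multiplication by 6 is injective on the finite set
  have hmem : ∀ (x : XX), x ∈ C.carrier → ∀ i j, ((EE x.1 i j : ℝ) : TT) ∈ val '' C.carrier := by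
    intro x hx i j
    exact ⟨S23.a (i, j) x, C.inv _ _ hx, val_a _ _⟩
  have hmaps : MapsTo (fun t : TT => 6 • t) (val '' C.carrier) (val '' C.carrier) := by
    rintro _ ⟨x, hx, rfl⟩
    have := six_coe x 0 0
    change 6 • ((EE x.1 0 0 : ℝ) : TT) ∈ _
    rw [this]
    exact hmem x hx _ _
  have hsurj : SurjOn (fun t : TT => 6 • t) (val '' C.carrier) (val '' C.carrier) := by
    rintro _ ⟨x, hx, rfl⟩
    refine ⟨_, hmem x hx (-1) (-1), ?_⟩
    have := six_coe x (-1) (-1)
    rw [show (-1 : ℤ) + 1 = 0 by norm_num] at this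
    exact this
  have hinj : InjOn (fun t : TT => 6 • t) (val '' C.carrier) :=
    ((hfin.surjOn_iff_bijOn_of_mapsTo hmaps).1 hsurj).injOn
  have hback : ∀ n : ℕ, ((EE c.1 (-n) (-n) : ℝ) : TT) = ((EE c'.1 (-n) (-n) : ℝ) : TT) := by
    intro n
    induction n with
    | zero => simpa [val] using h
    | succ n ih =>
      apply hinj (hmem c hc _ _) (hmem c' hc' _ _)
      have h1 := six_coe c (-((n + 1 : ℕ) : ℤ)) (-((n + 1 : ℕ) : ℤ))
      have h2 := six_coe c' (-((n + 1 : ℕ) : ℤ)) (-((n + 1 : ℕ) : ℤ))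
      have e : -((n + 1 : ℕ) : ℤ) + 1 = -n := by push_cast; ring
      rw [e] at h1 h2
      change 6 • _ = 6 • _
      rw [h1, h2, ih]
  have hEE : ∀ n : ℕ, EE c.1 (-n) (-n) = EE c'.1 (-n) (-n) := by
    intro n
    induction n with
    | zero =>
      have h1 := hback 0
      simp only [Nat.cast_zero, neg_zero] at h1 ⊢
      rcases coe_eq_cases (EE_nonneg _ _ _) (EE_le_one _ _ _) (EE_nonneg _ _ _) (EE_le_one _ _ _) h1 with
        h2 | ⟨h2, h3⟩ | ⟨h2, h3⟩
      · exact h2
      · have h4 := (dig_of_zero h2).1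
        have h5 := (dig_of_one h3).1
        rw [h0] at h4
        omega
      · have h4 := (dig_of_one h2).1
        have h5 := (dig_of_zero h3).1
        rw [h0] at h4
        omega
    | succ n ih =>
      have e : -((n + 1 : ℕ) : ℤ) + 1 = -n := by push_cast; ring
      rcases coe_eq_cases (EE_nonneg _ _ _) (EE_le_one _ _ _) (EE_nonneg _ _ _) (EE_le_one _ _ _) (hback (n + 1)) with
        h2 | ⟨h2, h3⟩ | ⟨h2, h3⟩
      · exact h2
      · have h4 := (dig_of_zero h2).2
        have h5 := (dig_of_one h3).2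
        rw [e] at h4 h5
        rw [ih, h5] at h4
        norm_num at h4
      · have h4 := (dig_of_one h2).2
        have h5 := (dig_of_zero h3).2
        rw [e] at h4 h5
        rw [ih, h5] at h4
        norm_num at h4
  have hdig : ∀ i j, EE c.1 i j = EE c'.1 i j → c.1 i j = c'.1 i j := by
    intro i j hij
    have h1 := EE_step c.1 i j
    have h2 := EE_step c'.1 i j
    have n1 := EE_nonneg c.1 (i + 1) (j + 1)
    have n2 := EE_le_one c.1 (i + 1) (j + 1)
    have n3 := EE_nonneg c'.1 (i + 1) (j + 1)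
    have n4 := EE_le_one c'.1 (i + 1) (j + 1)
    rw [hij, h2] at h1
    by_contra hne
    have hne' : (c.1 i j : ℕ) ≠ (c'.1 i j : ℕ) := fun h => hne (Fin.ext h)
    have hend : (6 : ℕ) • ((EE c.1 i j : ℝ) : TT) = 0 := by
      rw [six_coe]
      rcases lt_or_gt_of_ne hne' with h3 | h3
      · have h4 : ((c.1 i j : ℕ) : ℝ) + 1 ≤ (c'.1 i j : ℕ) := by exact_mod_cast h3
        have h5 : EE c.1 (i + 1) (j + 1) = 1 := by linarith
        rw [h5, AddCircle.coe_eq_zero_iff]
        exact ⟨1, by simp⟩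
      · have h4 : ((c'.1 i j : ℕ) : ℝ) + 1 ≤ (c.1 i j : ℕ) := by exact_mod_cast h3
        have h5 : EE c.1 (i + 1) (j + 1) = 0 := by linarith
        rw [h5]
        simp
    have h0m : (0 : TT) ∈ val '' C.carrier := by
      rw [← hend]
      exact hmaps (hmem c hc i j)
    have ht : ((EE c.1 i j : ℝ) : TT) = ((0 : ℝ) : TT) := by
      apply hinj (hmem c hc i j) (by simpa using h0m)
      change 6 • _ = 6 • _
      rw [hend]
      simp
    rcases coe_eq_cases (EE_nonneg _ _ _) (EE_le_one _ _ _) le_rfl zero_le_one ht with h3 | ⟨h3, h4⟩ | ⟨h3, h4⟩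
    · have h5 := (dig_of_zero h3).1
      rw [hij] at h3
      have h6 := (dig_of_zero h3).1
      exact hne' (h5.trans h6.symm)
    · norm_num at h4
    · have h5 := (dig_of_one h3).1
      rw [hij] at h3
      have h6 := (dig_of_one h3).1
      exact hne' (h5.trans h6.symm)
  have hquad : ∀ n p q : ℕ, EE c.1 (-n + p) (-n + q) = EE c'.1 (-n + p) (-n + q) := by
    intro n p
    induction p with
    | zero =>
      intro q
      induction q with
      | zero => simpa using hEE n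
      | succ q ih =>
        have h1 := EE_three c.2 (-n + (0 : ℕ)) (-n + q)
        have h2 := EE_three c'.2 (-n + (0 : ℕ)) (-n + q)
        have e : (-n + ((q + 1 : ℕ) : ℤ) : ℤ) = -n + q + 1 := by push_cast; ring
        rw [e, h1, h2, ih, hdig _ _ ih]
    | succ p ih =>
      intro q
      have h1 := EE_two c.2 (-n + p) (-n + q)
      have h2 := EE_two c'.2 (-n + p) (-n + q)
      have e : (-n + ((p + 1 : ℕ) : ℤ) : ℤ) = -n + p + 1 := by push_cast; ring
      rw [e, h1, h2, ih q, hdig _ _ (ih q)]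
  apply Subtype.ext
  funext i j
  apply hdig
  have := hquad (i.natAbs + j.natAbs) (i + (i.natAbs + j.natAbs : ℕ)).toNat (j + (i.natAbs + j.natAbs : ℕ)).toNat
  rw [Int.toNat_of_nonneg (by omega), Int.toNat_of_nonneg (by omega)] at this
  have e1 : -((i.natAbs + j.natAbs : ℕ) : ℤ) + (i + ((i.natAbs + j.natAbs : ℕ) : ℤ)) = i := by ring
  have e2 : -((i.natAbs + j.natAbs : ℕ) : ℤ) + (j + ((i.natAbs + j.natAbs : ℕ) : ℤ)) = j := by ring
  rw [e1, e2] at this
  exact this

theorem finite_of_val {C : CI S23} (hfin : (val '' C.carrier).Finite) : C.carrier.Finite := by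
  refine Set.Finite.of_injOn (f := fun c : XX => (val c, c.1 0 0)) (t := (val '' C.carrier) ×ˢ univ) ?_ ?_
    (hfin.prod finite_univ)
  · intro c hc
    exact ⟨⟨c, hc, rfl⟩, trivial⟩
  · intro c hc c' hc' h
    simp only [Prod.mk.injEq] at h
    exact eq_of_val_eq hfin hc hc' h.1 h.2

/-- prescribing the first digits -/
theorem exists_real (K : ℕ) : ∀ d : ℕ → Fin 6, ∃ r : ℝ, 0 < r ∧ r < 1 ∧ ∀ (c : ℤ → ℤ → Fin 6) (i j : ℤ),
    EE c i j = r → ∀ k < K, c (i + k) (j + k) = d k := by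
  induction K with
  | zero => exact fun d => ⟨1 / 2, by norm_num, by norm_num, fun c i j _ k hk => absurd hk (by omega)⟩
  | succ K ih =>
    intro d
    obtain ⟨ρ, h0, h1, h⟩ := ih fun k => d (k + 1)
    have hd := dig_le (d 0)
    have hd0 : (0 : ℝ) ≤ ((d 0 : ℕ) : ℝ) := by positivity
    refine ⟨((d 0 : ℕ) + ρ) / 6, by positivity, by linarith, ?_⟩
    intro c i j hE
    have h2 := EE_step c i j
    have n1 := EE_nonneg c (i + 1) (j + 1)
    have n2 := EE_le_one c (i + 1) (j + 1)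
    rw [hE] at h2
    have h3 : ((d 0 : ℕ) : ℝ) + ρ = (c i j : ℕ) + EE c (i + 1) (j + 1) := by linarith
    have h4 : (c i j : ℕ) = (d 0 : ℕ) := by
      rcases lt_trichotomy (c i j : ℕ) (d 0 : ℕ) with h5 | h5 | h5
      · have : ((c i j : ℕ) : ℝ) + 1 ≤ (d 0 : ℕ) := by exact_mod_cast h5
        linarith
      · exact h5
      · have : ((d 0 : ℕ) : ℝ) + 1 ≤ (c i j : ℕ) := by exact_mod_cast h5
        linarith
    have h5 : EE c (i + 1) (j + 1) = ρ := by
      rw [h4] at h3
      linarith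
    intro k hk
    rcases k with _ | k
    · simpa using Fin.ext h4
    · have := h c (i + 1) (j + 1) h5 k (by omega)
      have e1 : i + ((k + 1 : ℕ) : ℤ) = i + 1 + k := by push_cast; ring
      have e2 : j + ((k + 1 : ℕ) : ℤ) = j + 1 + k := by push_cast; ring
      rw [e1, e2, this]

/-- the digits on the diagonal determine the digits in a square -/
theorem det_square {c c' : XX} {K : ℕ} (h : ∀ k < K, c.1 k k = c'.1 k k) :
    ∀ s i : ℕ, i + s < K → c.1 (i + s) i = c'.1 (i + s) i ∧ c.1 i (i + s) = c'.1 i (i + s) := by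
  intro s
  induction s with
  | zero =>
    intro i hi
    simpa using h i (by omega)
  | succ s ih =>
    intro i hi
    have h1 := ih i (by omega)
    have h2 := ih (i + 1) (by omega)
    have e1 : (i : ℤ) + ((s + 1 : ℕ) : ℤ) = i + s + 1 := by push_cast; ring
    have e2 : ((i + 1 : ℕ) : ℤ) + (s : ℤ) = i + s + 1 := by push_cast; ring
    have e3 : ((i + 1 : ℕ) : ℤ) = (i : ℤ) + 1 := by push_cast; ring
    rw [e2, e3] at h2
    rw [e1]
    constructor
    · apply Fin.ext
      have r1 := (c.2 (i + s) i).1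
      have r2 := (c'.2 (i + s) i).1
      rw [r1, r2, h1.1, h2.1]
    · apply Fin.ext
      have r1 := (c.2 i (i + s)).2
      have r2 := (c'.2 i (i + s)).2
      rw [r1, r2, h1.2, h2.2]

/-- agreement on a square -/
def AgX (M : ℕ) (c c' : XX) : Prop := ∀ i j : ℤ, i.natAbs ≤ M → j.natAbs ≤ M → c.1 i j = c'.1 i j

theorem exists_agX_subset {U : Set XX} (hU : IsOpen U) {c : XX} (hc : c ∈ U) : ∃ M, {c' | AgX M c' c} ⊆ U := by
  obtain ⟨V, hV, rfl⟩ := isOpen_induced_iff.1 hU
  obtain ⟨I, u, hu, hs⟩ := isOpen_pi_iff.1 hV c.1 hc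
  have h : ∀ i ∈ I, ∃ J : Finset ℤ, ∀ f : ℤ → Fin 6, (∀ j ∈ J, f j = c.1 i j) → f ∈ u i := by
    intro i hi
    obtain ⟨J, w, hw, hsw⟩ := isOpen_pi_iff.1 (hu i hi).1 (c.1 i) (hu i hi).2
    refine ⟨J, fun f hf => hsw fun j hj => ?_⟩
    rw [hf j hj]
    exact (hw j hj).2
  choose! J hJ using h
  refine ⟨I.sup (fun i => i.natAbs + (J i).sup Int.natAbs), fun c' hc' => hs fun i hi => hJ i hi _ fun j hj => ?_⟩
  have h1 : i.natAbs + (J i).sup Int.natAbs ≤ I.sup (fun i => i.natAbs + (J i).sup Int.natAbs) :=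
    Finset.le_sup (f := fun i => i.natAbs + (J i).sup Int.natAbs) hi
  have h2 : j.natAbs ≤ (J i).sup Int.natAbs := Finset.le_sup (f := Int.natAbs) hj
  exact hc' i j (by omega) (by omega)

theorem exists_in {C : CI S23} (h : val '' C.carrier = univ) (x : XX) (M : ℕ) : ∃ y ∈ C.carrier, AgX M y x := by
  obtain ⟨r, h0, h1, hr⟩ := exists_real (2 * M + 1) fun k => (S23.a (-M, -M) x).1 k k
  have : (r : TT) ∈ val '' C.carrier := h ▸ mem_univ _
  obtain ⟨z, hz, hzr⟩ := this
  have hE : EE z.1 0 0 = r := by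
    rcases coe_eq_cases (EE_nonneg _ _ _) (EE_le_one _ _ _) h0.le h1.le hzr with h2 | ⟨-, h2⟩ | ⟨-, h2⟩
    · exact h2
    · linarith
    · linarith
  have hd : ∀ k < 2 * M + 1, z.1 k k = (S23.a (-M, -M) x).1 k k := by
    intro k hk
    have := hr z.1 0 0 hE k hk
    simpa using this
  have hsq := det_square hd
  refine ⟨S23.a (M, M) z, C.inv _ _ hz, ?_⟩
  intro i j hi hj
  rw [S23_apply]
  have hx : x.1 i j = (S23.a (-M, -M) x).1 (M + i) (M + j) := by
    have e1 : (-(M : ℤ)) + (M + i) = i := by ring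
    have e2 : (-(M : ℤ)) + (M + j) = j := by ring
    rw [S23_apply]
    change x.1 i j = x.1 (-(M : ℤ) + (M + i)) (-(M : ℤ) + (M + j))
    rw [e1, e2]
  rw [hx]
  change z.1 (M + i) (M + j) = _
  obtain ⟨p, hp⟩ : ∃ p : ℕ, (M : ℤ) + i = p := ⟨((M : ℤ) + i).toNat, (Int.toNat_of_nonneg (by omega)).symm⟩
  obtain ⟨q, hq⟩ : ∃ q : ℕ, (M : ℤ) + j = q := ⟨((M : ℤ) + j).toNat, (Int.toNat_of_nonneg (by omega)).symm⟩
  rw [hp, hq]
  rcases le_total p q with hpq | hpq
  · obtain ⟨s, rfl⟩ := Nat.exists_eq_add_of_le hpq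
    have := (hsq s p (by omega)).2
    simpa using this
  · obtain ⟨s, rfl⟩ := Nat.exists_eq_add_of_le hpq
    have := (hsq s q (by omega)).1
    simpa using this

/-- **The closed invariant proper subsets are finite.** -/
theorem finite_of_ne_univ (C : CI S23) (hC : C.carrier ≠ univ) : C.carrier.Finite := by
  by_contra hinf
  have h1 : ¬ (val '' C.carrier).Finite := fun h => hinf (finite_of_val h)
  have hclosed : IsClosed (val '' C.carrier) := (C.closed.isCompact.image cont_val).isClosed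
  have hinv : Inv 2 3 (val '' C.carrier) := by
    rintro _ ⟨c, hc, rfl⟩
    constructor
    · refine ⟨S23.a (1, 0) c, C.inv _ _ hc, ?_⟩
      rw [val_a]
      have := two_coe c 0 0
      simpa [val] using this.symm
    · refine ⟨S23.a (0, 1) c, C.inv _ _ hc, ?_⟩
      rw [val_a]
      have := three_coe c 0 0
      simpa [val] using this.symm
  have huniv := Pool.Agent.R477.XQ.furst (p := 2) (q := 3) le_rfl (by norm_num) irr23 hclosed hinv h1
  apply hC
  rw [eq_univ_iff_forall]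
  intro x
  by_contra hx
  obtain ⟨M, hM⟩ := exists_agX_subset C.closed.isOpen_compl hx
  obtain ⟨y, hy, hyx⟩ := exists_in huniv x M
  exact hM hyx hy

end Pool.Agent.H48.CBR
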